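import Pool.Agent.PRAR.S.A

/-! # Section 2: (F3) -/

set_option autoImplicit false
set_option linter.unusedSectionVars false

open scoped Classical

noncomputable section

namespace PRAR

variable {ι : Type} [Fintype ι] {F : Type} [Field F] [Fintype F]
variable {Y V : Type} [AddCommGroup Y] [Module F Y] [Fintype Y] [AddCommGroup V] [Module F V]
  [Fintype V]

/-- The map `f` vanishes at all vertices `J.piecewise b y`, `J ⊆ I \ j`. -/
def sc_ev (I : Finset ι) (j : ι) (f : (ι → Y) → V) (y b : ι → Y) : Prop :=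
  ∀ J ∈ (I.erase j).powerset, f (J.piecewise b y) = 0

theorem sc_rg {I : Finset ι} {f : (ι → Y) → V} (hf : MLin F I f) {j : ι} (hj : j ∈ I)
    (y b : ι → Y) :
    (qq F)⁻¹ ^ rg hf hj y b = prob (fun u : Y => sc_ev I j f (Function.update y j u) b) := by
  unfold rg
  rw [← prob_mem]
  refine prob_congr fun u => ?_
  simp only [Submodule.mem_iInf, LinearMap.mem_ker, sc_ev]
  refine forall_congr' fun J => forall_congr' fun hJ => ?_
  have hjJ : j ∉ J := fun h => Finset.notMem_erase j I (Finset.mem_powerset.1 hJ h)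
  show f (Function.update (J.piecewise b y) j u) = 0 ↔ _
  rw [Finset.update_piecewise_of_notMem _ _ _ hjJ]

theorem sc_rk {I : Finset ι} {f : (ι → Y) → V} (hf : MLin F I f) {j : ι} (hj : j ∈ I)
    (y : ι → Y) :
    (qq F)⁻¹ ^ rkj hf hj y = prob (fun u : Y => f (Function.update y j u) = 0) := by
  unfold rkj
  rw [← codim_ker, ← prob_mem]
  exact prob_congr fun u => LinearMap.mem_ker

/-- Independence. -/
theorem sc_prod {α β : Type*} [Fintype α] [Fintype β] (p : α → Prop) (r : β → Prop) :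
    prob (fun x : α × β => p x.1 ∧ r x.2) = prob p * prob r := by
  rw [prob_prod, prob_eq_avg p, mul_comm, ← avg_const_mul]
  congr 1
  funext x
  by_cases h : p x
  · simp only [h, true_and, if_true, mul_one]
  · simp only [h, false_and, if_false, mul_zero]
    unfold prob
    simp

/-- Coordinates of a 3-grid. -/
def sc_equiv (ι Y : Type) : (ι × Fin 3 → Y) ≃ (ι → Y) × ((ι → Y) × (ι → Y)) where
  toFun yb := (fun i => yb (i, 0), (fun i => yb (i, 1), fun i => yb (i, 2)))
  invFun p := fun x => ![p.1 x.1, p.2.1 x.1, p.2.2 x.1] x.2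
  left_inv := by
    intro yb
    funext x
    obtain ⟨i, c⟩ := x
    fin_cases c <;> rfl
  right_inv := by
    rintro ⟨a, b, c⟩
    rfl

/-- The vertex with value `c` on `J` and `0` elsewhere. -/
def sc_vtx (c : Fin 3) (J : Finset ι) : ι → Fin 3 := fun i => if i ∈ J then c else 0

theorem sc_vtx_inj {c : Fin 3} (hc : c ≠ 0) : Function.Injective (sc_vtx (ι := ι) c) := by
  intro J K h
  ext i
  have h1 := congrFun h i
  unfold sc_vtx at h1
  by_cases hJ : i ∈ J <;> by_cases hK : i ∈ K
  · simp [hJ, hK]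
  · simp only [hJ, hK, if_true, if_false] at h1
    exact absurd h1 hc
  · simp only [hJ, hK, if_true, if_false] at h1
    exact absurd h1.symm hc
  · simp [hJ, hK]

/-- The set of vertices of the two 2-grids `{y,b}`, `{y,b'}`. -/
def sc_A (I : Finset ι) (j : ι) : Finset (ι → Fin 3) :=
  (I.erase j).powerset.image (sc_vtx 1) ∪ ((I.erase j).powerset.erase ∅).image (sc_vtx 2)

theorem sc_A_card {I : Finset ι} {j : ι} (hj : j ∈ I) :
    ((sc_A I j).card : ℝ) = 2 * (2 : ℝ) ^ (I.card - 1) - 1 := by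
  have h1 : Disjoint ((I.erase j).powerset.image (sc_vtx 1))
      (((I.erase j).powerset.erase ∅).image (sc_vtx 2)) := by
    rw [Finset.disjoint_left]
    intro α h1 h2
    obtain ⟨J, _, rfl⟩ := Finset.mem_image.1 h1
    obtain ⟨K, hK, hKJ⟩ := Finset.mem_image.1 h2
    obtain ⟨i, hi⟩ := Finset.nonempty_iff_ne_empty.2 (Finset.mem_erase.1 hK).1
    have h3 := congrFun hKJ i
    unfold sc_vtx at h3
    rw [if_pos hi] at h3
    by_cases hJ : i ∈ J
    · rw [if_pos hJ] at h3
      exact absurd h3 (by decide)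
    · rw [if_neg hJ] at h3
      exact absurd h3 (by decide)
  have h2 : (sc_A I j).card = 2 ^ (I.card - 1) + (2 ^ (I.card - 1) - 1) := by
    unfold sc_A
    rw [Finset.card_union_of_disjoint h1, Finset.card_image_of_injective _ (sc_vtx_inj (by decide)),
      Finset.card_image_of_injective _ (sc_vtx_inj (by decide)),
      Finset.card_erase_of_mem (Finset.empty_mem_powerset _), Finset.card_powerset,
      Finset.card_erase_of_mem hj]
  have h3 : 1 ≤ 2 ^ (I.card - 1) := Nat.one_le_two_pow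
  rw [h2]
  push_cast [Nat.cast_sub h3]
  ring

theorem sc_A_sub (I : Finset ι) (j : ι) : sc_A I j ⊆ full I := by
  have key : ∀ (c : Fin 3) (J : Finset ι), J ⊆ I.erase j → sc_vtx c J ∈ full I := by
    intro c J hJ
    unfold full
    rw [Finset.mem_filter]
    refine ⟨Finset.mem_univ _, fun i hi => ?_⟩
    unfold sc_vtx
    rw [if_neg fun h => hi (Finset.mem_of_mem_erase (hJ h))]
  unfold sc_A
  refine Finset.union_subset ?_ ?_
  · intro α hα
    obtain ⟨J, hJ, rfl⟩ := Finset.mem_image.1 hα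
    exact key _ _ (Finset.mem_powerset.1 hJ)
  · intro α hα
    obtain ⟨J, hJ, rfl⟩ := Finset.mem_image.1 hα
    exact key _ _ (Finset.mem_powerset.1 (Finset.mem_of_mem_erase hJ))

theorem sc_Zv (I : Finset ι) (j : ι) (f : (ι → Y) → V) :
    avg (fun y : ι → Y => prob (fun b : ι → Y => sc_ev I j f y b) ^ 2) ≤ Zv f (sc_A I j) := by
  have h1 : ∀ y : ι → Y, prob (fun b : ι → Y => sc_ev I j f y b) ^ 2 =
      prob (fun bb : (ι → Y) × (ι → Y) => sc_ev I j f y bb.1 ∧ sc_ev I j f y bb.2) := by
    intro y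
    rw [sc_prod, sq]
  have h2 : avg (fun y : ι → Y => prob (fun b : ι → Y => sc_ev I j f y b) ^ 2) =
      prob (fun p : (ι → Y) × ((ι → Y) × (ι → Y)) =>
        sc_ev I j f p.1 p.2.1 ∧ sc_ev I j f p.1 p.2.2) := by
    rw [prob_prod]
    congr 1
    funext y
    exact h1 y
  rw [h2]
  unfold Zv
  rw [← prob_equiv (sc_equiv ι Y)]
  refine le_trans (prob_mono (r := fun yb : ι × Fin 3 → Y =>
    ∀ α ∈ sc_A I j, f (fun i => yb (i, α i)) = 0) ?_) (le_of_eq (bac_same _ _ _))
  rintro yb ⟨hb, hb'⟩ α hα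
  unfold sc_A at hα
  rcases Finset.mem_union.1 hα with h | h
  · obtain ⟨J, hJ, rfl⟩ := Finset.mem_image.1 h
    have h3 := hb J hJ
    convert h3 using 2
    funext i
    unfold sc_vtx
    by_cases hi : i ∈ J
    · simp [hi, sc_equiv]
    · simp [hi, sc_equiv]
  · obtain ⟨J, hJ, rfl⟩ := Finset.mem_image.1 h
    have h3 := hb' J (Finset.mem_of_mem_erase hJ)
    convert h3 using 2
    funext i
    unfold sc_vtx
    by_cases hi : i ∈ J
    · simp [hi, sc_equiv]
    · simp [hi, sc_equiv]

theorem sc_CS {I : Finset ι} {f : (ι → Y) → V} (hf : MLin F I f) {j : ι} (hj : j ∈ I)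
    (y : ι → Y) :
    avg (fun b : ι → Y => (qq F)⁻¹ ^ rg hf hj y b) ^ 2 ≤ (qq F)⁻¹ ^ rkj hf hj y *
      avg (fun u : Y => prob (fun b : ι → Y => sc_ev I j f (Function.update y j u) b) ^ 2) := by
  have h1 : avg (fun b : ι → Y => (qq F)⁻¹ ^ rg hf hj y b) =
      avg (fun u : Y => (if f (Function.update y j u) = 0 then (1 : ℝ) else 0) *
        prob (fun b : ι → Y => sc_ev I j f (Function.update y j u) b)) := by
    simp_rw [sc_rg hf hj]
    have h2 : avg (fun b : ι → Y => prob (fun u : Y => sc_ev I j f (Function.update y j u) b)) =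
        avg (fun u : Y => prob (fun b : ι → Y => sc_ev I j f (Function.update y j u) b)) := by
      simp_rw [prob_eq_avg]
      exact avg_comm _
    rw [h2]
    congr 1
    funext u
    by_cases h : f (Function.update y j u) = 0
    · rw [if_pos h, one_mul]
    · rw [if_neg h, zero_mul]
      unfold prob
      have h3 : ∀ b : ι → Y, ¬ sc_ev I j f (Function.update y j u) b := by
        intro b hb
        have h4 := hb ∅ (Finset.empty_mem_powerset _)
        rw [Finset.piecewise_empty] at h4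
        exact h h4
      simp [h3]
  rw [h1]
  refine (avg_mul_sq_le _ _).trans (le_of_eq ?_)
  rw [sc_rk hf hj, prob_eq_avg]
  congr 1
  congr 1
  funext u
  by_cases h : f (Function.update y j u) = 0
  · rw [if_pos h]; norm_num
  · rw [if_neg h]; norm_num

theorem S_F3 {I : Finset ι} {f : (ι → Y) → V} (hf : MLin F I f) {j : ι} (hj : j ∈ I) {a κ : ℝ}
    (h0 : prob (fun y : ι → Y => f y = 0) = (qq F) ^ (-a))
    (h3 : ZU f 3 ≤ (qq F) ^ (-((3 : ℝ) ^ I.card * a) + κ)) (t : ℝ) :
    avg (fun y : ι → Y => avg (fun b : ι → Y =>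
      if a + t ≤ rkj hf hj y then (qq F)⁻¹ ^ rg hf hj y b else 0)) ≤
      (qq F) ^ (-((2 : ℝ) ^ (I.card - 1) * a) + (κ - t) / 2) := by
  have hq0 := qq_pos F
  have hq1 := one_lt_qq F
  set H : (ι → Y) → ℝ := fun y => avg (fun b : ι → Y =>
      if a + t ≤ rkj hf hj y then (qq F)⁻¹ ^ rg hf hj y b else 0) with hH
  have hH0 : ∀ y, 0 ≤ H y := by
    intro y
    refine avg_nonneg fun b => ?_
    split_ifs
    · positivity
    · exact le_rfl
  have hH2 : ∀ y, H y ^ 2 ≤ (qq F) ^ (-(a + t)) *
      avg (fun u : Y => prob (fun b : ι → Y => sc_ev I j f (Function.update y j u) b) ^ 2) := by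
    intro y
    have hW : 0 ≤ avg (fun u : Y =>
        prob (fun b : ι → Y => sc_ev I j f (Function.update y j u) b) ^ 2) :=
      avg_nonneg fun u => sq_nonneg _
    by_cases h : a + t ≤ rkj hf hj y
    · have e1 : H y = avg (fun b : ι → Y => (qq F)⁻¹ ^ rg hf hj y b) := by
        rw [hH]
        simp only [h, if_true]
      rw [e1]
      refine (sc_CS hf hj y).trans (mul_le_mul_of_nonneg_right ?_ hW)
      rw [inv_pow, ← Real.rpow_natCast, ← Real.rpow_neg hq0.le]
      exact Real.rpow_le_rpow_of_exponent_le hq1.le (by linarith)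
    · have e1 : H y = 0 := by
        rw [hH]
        simp only [h, if_false]
        unfold avg
        simp
      rw [e1]
      have : 0 ≤ (qq F) ^ (-(a + t)) := (Real.rpow_pos_of_pos hq0 _).le
      have := mul_nonneg this hW
      simpa using this
  have k1 : avg H ^ 2 ≤ avg (fun y => H y ^ 2) := avg_pow_le H hH0 2
  have k2 : avg (fun y => H y ^ 2) ≤ (qq F) ^ (-(a + t)) *
      avg (fun y : ι → Y => prob (fun b : ι → Y => sc_ev I j f y b) ^ 2) := by
    refine (avg_mono hH2).trans (le_of_eq ?_)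
    rw [avg_const_mul]
    congr 1
    exact avg_update j (fun y : ι → Y => prob (fun b : ι → Y => sc_ev I j f y b) ^ 2)
  have k3 := (sc_Zv I j f).trans (Zv_le hf h0 h3 (sc_A I j) (sc_A_sub I j))
  rw [sc_A_card hj] at k3
  have k4 : avg H ^ 2 ≤ ((qq F) ^ (-((2 : ℝ) ^ (I.card - 1) * a) + (κ - t) / 2)) ^ 2 := by
    refine (k1.trans k2).trans ?_
    refine (mul_le_mul_of_nonneg_left k3 (Real.rpow_pos_of_pos hq0 _).le).trans (le_of_eq ?_)
    rw [← Real.rpow_add hq0, sq, ← Real.rpow_add hq0]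
    congr 1
    ring
  exact (sq_le_sq₀ (avg_nonneg hH0) (Real.rpow_pos_of_pos hq0 _).le).1 k4

end PRAR
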