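import Pool.Agent.PRAR.S.Def

/-! # Section 2: symmetries of the weight -/

set_option autoImplicit false
set_option linter.unusedSectionVars false

open scoped Classical

noncomputable section

namespace PRAR

variable {ι : Type} [Fintype ι] {F : Type} [Field F] [Fintype F]
variable {Y V : Type} [AddCommGroup Y] [Module F Y] [Fintype Y] [AddCommGroup V] [Module F V]
  [Fintype V]

theorem sd_mem {I : Finset ι} {f : (ι → Y) → V} (hf : MLin F I f) {j : ι} (hj : j ∈ I)
    (y b : ι → Y) (u : Y) :
    u ∈ (⨅ J ∈ (I.erase j).powerset, LinearMap.ker (slotMap hf hj (J.piecewise b y))) ↔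
      ∀ J : Finset ι, f (Function.update (J.piecewise b y) j u) = 0 := by
  simp only [Submodule.mem_iInf, LinearMap.mem_ker, Finset.mem_powerset]
  constructor
  · intro h J
    have h1 := h (J ∩ (I.erase j)) Finset.inter_subset_right
    change f (Function.update ((J ∩ (I.erase j)).piecewise b y) j u) = 0 at h1
    rw [← h1]
    apply hf.congr
    intro i hi
    by_cases hij : i = j
    · subst hij
      simp
    · rw [Function.update_of_ne hij, Function.update_of_ne hij]
      by_cases hiJ : i ∈ J
      · rw [Finset.piecewise_eq_of_mem _ _ _ hiJ, Finset.piecewise_eq_of_mem]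
        exact Finset.mem_inter.2 ⟨hiJ, Finset.mem_erase.2 ⟨hij, hi⟩⟩
      · rw [Finset.piecewise_eq_of_notMem _ _ _ hiJ, Finset.piecewise_eq_of_notMem]
        exact fun h2 => hiJ (Finset.mem_inter.1 h2).1
  · intro h J _
    exact h J

theorem sd_rg {I : Finset ι} {f : (ι → Y) → V} (hf : MLin F I f) {j : ι} (hj : j ∈ I)
    (y b y' b' : ι → Y)
    (h : ∀ u, (∀ J : Finset ι, f (Function.update (J.piecewise b y) j u) = 0) ↔
      (∀ J : Finset ι, f (Function.update (J.piecewise b' y') j u) = 0)) :
    rg hf hj y b = rg hf hj y' b' := by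
  unfold rg
  congr 1
  ext u
  rw [sd_mem, sd_mem]
  exact h u

/-- Exchanging the two points in the slots of `J`. -/
def sd_swap (J : Finset ι) : ((ι → Y) × (ι → Y)) ≃ ((ι → Y) × (ι → Y)) where
  toFun p := (J.piecewise p.2 p.1, J.piecewise p.1 p.2)
  invFun p := (J.piecewise p.2 p.1, J.piecewise p.1 p.2)
  left_inv := by
    rintro ⟨y, b⟩
    ext i <;> by_cases hi : i ∈ J <;> simp [hi]
  right_inv := by
    rintro ⟨y, b⟩
    ext i <;> by_cases hi : i ∈ J <;> simp [hi]

/-- Adding the second point to the first one in slot `i`. -/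
def sd_shear (i : ι) : ((ι → Y) × (ι → Y)) ≃ ((ι → Y) × (ι → Y)) where
  toFun p := (Function.update p.1 i (p.1 i + p.2 i), p.2)
  invFun p := (Function.update p.1 i (p.1 i - p.2 i), p.2)
  left_inv := by
    rintro ⟨y, b⟩
    simp
  right_inv := by
    rintro ⟨y, b⟩
    simp

theorem sd_rg_swap {I : Finset ι} {f : (ι → Y) → V} (hf : MLin F I f) {j : ι} (hj : j ∈ I)
    (J : Finset ι) (y b : ι → Y) :
    rg hf hj (J.piecewise b y) (J.piecewise y b) = rg hf hj y b := by
  have key : ∀ J' : Finset ι, J'.piecewise (J.piecewise y b) (J.piecewise b y) =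
      (symmDiff J' J).piecewise b y := by
    intro J'
    funext i
    by_cases h1 : i ∈ J' <;> by_cases h2 : i ∈ J <;>
      simp [h1, h2, Finset.piecewise, Finset.mem_symmDiff]
  apply sd_rg
  intro u
  constructor
  · intro h J'
    have h1 := h (symmDiff J' J)
    rwa [key, symmDiff_symmDiff_cancel_right] at h1
  · intro h J'
    rw [key]
    exact h _

theorem sd_rg_shear {I : Finset ι} {f : (ι → Y) → V} (hf : MLin F I f) {j : ι} (hj : j ∈ I)
    (i : ι) (y b : ι → Y) :
    rg hf hj (Function.update y i (y i + b i)) b = rg hf hj y b := by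
  apply sd_rg
  intro u
  have h1 : ∀ J : Finset ι, i ∈ J → J.piecewise b (Function.update y i (y i + b i)) =
      J.piecewise b y := by
    intro J hi
    funext k
    by_cases hk : k ∈ J
    · simp [hk]
    · have hki : k ≠ i := fun e => hk (e ▸ hi)
      simp [hk, hki]
  have h2 : ∀ J : Finset ι, i ∉ J → J.piecewise b (Function.update y i (y i + b i)) =
      Function.update (J.piecewise b y) i (y i + b i) := by
    intro J hi
    funext k
    by_cases hki : k = i
    · subst hki
      simp [hi]
    · by_cases hk : k ∈ J <;> simp [hk, hki]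
  have h3 : ∀ J : Finset ι, i ∉ J → Function.update (J.piecewise b y) i (b i) =
      (insert i J).piecewise b y := by
    intro J hi
    funext k
    by_cases hki : k = i
    · subst hki
      simp
    · by_cases hk : k ∈ J <;> simp [hk, hki, Finset.piecewise]
  have h4 : ∀ J : Finset ι, i ∉ J → Function.update (J.piecewise b y) i (y i) =
      J.piecewise b y := by
    intro J hi
    funext k
    by_cases hki : k = i
    · subst hki
      simp [hi]
    · simp [hki]
  have key : ∀ J : Finset ι, i ∉ J →
      (f (Function.update (J.piecewise b (Function.update y i (y i + b i))) j u) =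
        f (Function.update (J.piecewise b y) j u)) ∨
      (f (Function.update (J.piecewise b (Function.update y i (y i + b i))) j u) =
        f (Function.update (J.piecewise b y) j u) +
          f (Function.update ((insert i J).piecewise b y) j u)) := by
    intro J hi
    rw [h2 J hi]
    by_cases hij : i = j
    · subst hij
      left
      simp
    · rw [Function.update_comm hij]
      by_cases hI : i ∈ I
      · right
        rw [hf.add i hI, Function.update_comm (Ne.symm hij), h4 J hi,
          Function.update_comm (Ne.symm hij), h3 J hi]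
      · left
        rw [hf.off i hI]
  constructor
  · intro h J
    by_cases hi : i ∈ J
    · have := h J
      rwa [h1 J hi] at this
    · rcases key J hi with h5 | h5
      · rw [← h5]
        exact h J
      · have h6 := h (insert i J)
        rw [h1 _ (Finset.mem_insert_self i J)] at h6
        rw [h J, h6, add_zero] at h5
        exact h5.symm
  · intro h J
    by_cases hi : i ∈ J
    · rw [h1 J hi]
      exact h J
    · rcases key J hi with h5 | h5
      · rw [h5]
        exact h J
      · rw [h5, h J, h (insert i J), add_zero]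

theorem S_vertex {I : Finset ι} {f : (ι → Y) → V} (hf : MLin F I f) {j : ι} (hj : j ∈ I)
    (J : Finset ι) (s : ℝ) :
    avg (fun y : ι → Y => avg (fun b : ι → Y =>
      if s ≤ rkj hf hj (J.piecewise b y) then (qq F)⁻¹ ^ rg hf hj y b else 0)) =
    avg (fun y : ι → Y => avg (fun b : ι → Y =>
      if s ≤ rkj hf hj y then (qq F)⁻¹ ^ rg hf hj y b else 0)) := by
  have h1 := avg_prod (fun p : (ι → Y) × (ι → Y) =>
    if s ≤ rkj hf hj (J.piecewise p.2 p.1) then (qq F)⁻¹ ^ rg hf hj p.1 p.2 else 0)
  have h2 := avg_prod (fun p : (ι → Y) × (ι → Y) =>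
    if s ≤ rkj hf hj p.1 then (qq F)⁻¹ ^ rg hf hj p.1 p.2 else 0)
  refine h1.symm.trans (Eq.trans ?_ h2)
  refine Eq.trans ?_ (avg_equiv (sd_swap (Y := Y) J) (fun p : (ι → Y) × (ι → Y) =>
    if s ≤ rkj hf hj p.1 then (qq F)⁻¹ ^ rg hf hj p.1 p.2 else 0))
  congr 1
  funext p
  change (if s ≤ rkj hf hj (J.piecewise p.2 p.1) then (qq F)⁻¹ ^ rg hf hj p.1 p.2 else 0) =
    (if s ≤ rkj hf hj (J.piecewise p.2 p.1) then
      (qq F)⁻¹ ^ rg hf hj (J.piecewise p.2 p.1) (J.piecewise p.1 p.2) else 0)
  rw [sd_rg_swap]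

theorem S_sumvertex {I : Finset ι} {f : (ι → Y) → V} (hf : MLin F I f) {j : ι} (hj : j ∈ I)
    (J : Finset ι) (i : ι) (hi : i ∉ J) (s : ℝ) :
    avg (fun y : ι → Y => avg (fun b : ι → Y =>
      if s ≤ rkj hf hj (Function.update (J.piecewise b y) i (y i + b i)) then
        (qq F)⁻¹ ^ rg hf hj y b else 0)) =
    avg (fun y : ι → Y => avg (fun b : ι → Y =>
      if s ≤ rkj hf hj y then (qq F)⁻¹ ^ rg hf hj y b else 0)) := by
  have h1 := avg_prod (fun p : (ι → Y) × (ι → Y) =>
    if s ≤ rkj hf hj (Function.update (J.piecewise p.2 p.1) i (p.1 i + p.2 i)) then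
      (qq F)⁻¹ ^ rg hf hj p.1 p.2 else 0)
  have h2 := avg_prod (fun p : (ι → Y) × (ι → Y) =>
    if s ≤ rkj hf hj p.1 then (qq F)⁻¹ ^ rg hf hj p.1 p.2 else 0)
  refine h1.symm.trans (Eq.trans ?_ h2)
  refine Eq.trans ?_ (avg_equiv ((sd_swap (Y := Y) J).trans (sd_shear (Y := Y) i))
    (fun p : (ι → Y) × (ι → Y) =>
      if s ≤ rkj hf hj p.1 then (qq F)⁻¹ ^ rg hf hj p.1 p.2 else 0))
  congr 1
  funext p
  change (if s ≤ rkj hf hj (Function.update (J.piecewise p.2 p.1) i (p.1 i + p.2 i)) then
      (qq F)⁻¹ ^ rg hf hj p.1 p.2 else 0) =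
    (if s ≤ rkj hf hj (Function.update (J.piecewise p.2 p.1) i
        ((J.piecewise p.2 p.1) i + (J.piecewise p.1 p.2) i)) then
      (qq F)⁻¹ ^ rg hf hj (Function.update (J.piecewise p.2 p.1) i
        ((J.piecewise p.2 p.1) i + (J.piecewise p.1 p.2) i)) (J.piecewise p.1 p.2) else 0)
  rw [sd_rg_shear, sd_rg_swap, Finset.piecewise_eq_of_notMem _ _ _ hi,
    Finset.piecewise_eq_of_notMem _ _ _ hi]

end PRAR
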