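import Pool.Agent.PRAR.Ba

/-! # Section 2: definitions -/

set_option autoImplicit false
set_option linter.unusedSectionVars false

open scoped Classical

noncomputable section

namespace PRAR

variable {ι : Type} [Fintype ι] {F : Type} [Field F] [Fintype F]
variable {Y V : Type} [AddCommGroup Y] [Module F Y] [Fintype Y] [AddCommGroup V] [Module F V]
  [Fintype V]

/-- Probability that `f` vanishes at the vertices `α ∈ 𝒜` of a random 3-grid. -/
def Zv (f : (ι → Y) → V) (𝒜 : Finset (ι → Fin 3)) : ℝ :=
  prob (fun yb : ι × Fin 3 → Y => ∀ α ∈ 𝒜, f (fun i => yb (i, α i)) = 0)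

/-- The vertices which are `0` off `I`. -/
def full (I : Finset ι) : Finset (ι → Fin 3) :=
  Finset.univ.filter (fun α => ∀ i, i ∉ I → α i = 0)

/-- Rank of the linear map in slot `j` at the point `y`. -/
def rkj {I : Finset ι} {f : (ι → Y) → V} (hf : MLin F I f) {j : ι} (hj : j ∈ I)
    (y : ι → Y) : ℕ := Module.finrank F (LinearMap.range (slotMap hf hj y))

/-- Codimension of the common kernel at the vertices of the 2-grid `{y, b}`. -/
def rg {I : Finset ι} {f : (ι → Y) → V} (hf : MLin F I f) {j : ι} (hj : j ∈ I)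
    (y b : ι → Y) : ℕ :=
  codim (⨅ J ∈ (I.erase j).powerset, LinearMap.ker (slotMap hf hj (J.piecewise b y)))

end PRAR
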