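import Pool.Agent.PRAR.S.E
import Pool.Agent.PRAR.S.Def

/-! # Section 2: a good pair -/

set_option autoImplicit false
set_option linter.unusedSectionVars false

open scoped Classical

noncomputable section

namespace PRAR

variable {ι : Type} [Fintype ι] {F : Type} [Field F] [Fintype F]
variable {Y V : Type} [AddCommGroup Y] [Module F Y] [Fintype Y] [AddCommGroup V] [Module F V]
  [Fintype V]

theorem sf_codim (P S : Finset (Finset ι)) (hS : S ⊆ P) (K : Finset ι → Submodule F Y) (c : ℝ)
    (h : ∀ J ∈ P, (codim (K J) : ℝ) ≤ c) :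
    (codim (⨅ J ∈ P, K J) : ℝ) ≤ codim (⨅ J ∈ S, K J) + ((P.card : ℝ) - S.card) * c := by
  have h1 : (⨅ J ∈ S, K J) ⊓ (⨅ J ∈ P \ S, K J) ≤ ⨅ J ∈ P, K J := by
    refine le_iInf₂ fun J hJ => ?_
    by_cases hJS : J ∈ S
    · exact inf_le_left.trans (iInf₂_le J hJS)
    · exact inf_le_right.trans (iInf₂_le J (Finset.mem_sdiff.2 ⟨hJ, hJS⟩))
  have h2 := codim_mono h1
  have h3 := codim_inf_le (⨅ J ∈ S, K J) (⨅ J ∈ P \ S, K J)
  have h4 := codim_iInf_le (P \ S) K (fun J => codim (K J)) (fun _ _ => le_rfl)
  have h5 : ((∑ J ∈ P \ S, codim (K J) : ℕ) : ℝ) ≤ ((P \ S).card : ℝ) * c := by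
    rw [Nat.cast_sum, ← nsmul_eq_mul, ← Finset.sum_const]
    exact Finset.sum_le_sum fun J hJ => h J (Finset.mem_sdiff.1 hJ).1
  have h6 : ((P \ S).card : ℝ) = (P.card : ℝ) - S.card := by
    rw [Finset.card_sdiff_of_subset hS, Nat.cast_sub (Finset.card_le_card hS)]
  rw [h6] at h5
  have h7 : (codim (⨅ J ∈ P, K J) : ℝ) ≤
      ((codim (⨅ J ∈ S, K J) + ∑ J ∈ P \ S, codim (K J) : ℕ) : ℝ) := by
    exact_mod_cast (h2.trans h3).trans (Nat.add_le_add_left h4 _)
  rw [Nat.cast_add] at h7
  linarith

theorem sf_add {I : Finset ι} {f : (ι → Y) → V} (hf : MLin F I f) {j : ι} (hj : j ∈ I)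
    (y b : ι → Y) {J : Finset ι} {i : ι} (hi : i ∈ I.erase j) (hJ : i ∉ J) :
    slotMap hf hj (J.piecewise b y) + slotMap hf hj ((insert i J).piecewise b y) =
      slotMap hf hj (Function.update (J.piecewise b y) i (y i + b i)) := by
  have hij : i ≠ j := Finset.ne_of_mem_erase hi
  have hiI : i ∈ I := Finset.mem_of_mem_erase hi
  ext x
  show f (Function.update (J.piecewise b y) j x) +
      f (Function.update ((insert i J).piecewise b y) j x) =
    f (Function.update (Function.update (J.piecewise b y) i (y i + b i)) j x)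
  rw [Finset.piecewise_insert]
  have h1 : J.piecewise b y = Function.update (J.piecewise b y) i (y i) := by
    have : (J.piecewise b y) i = y i := by simp [hJ]
    rw [← this]
    exact (Function.update_eq_self i _).symm
  have h2 : f (Function.update (J.piecewise b y) j x) =
      f (Function.update (Function.update (J.piecewise b y) i (y i)) j x) := by
    rw [← h1]
  rw [h2, Function.update_comm hij, Function.update_comm hij, Function.update_comm hij,
    ← hf.add i hiI]

/-- At a good pair the image at `y` is almost contained in the image at `b`. -/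
theorem good_pair {I : Finset ι} {f : (ι → Y) → V} (hf : MLin F I f) {j : ι} (hj : j ∈ I)
    (y b : ι → Y) (a t δ : ℝ) (ht : 0 ≤ t) (hδ : 0 ≤ δ)
    (h1 : (2 : ℝ) ^ (I.card - 1) * a - δ ≤ rg hf hj y b)
    (h2 : ∀ J, J ⊆ I.erase j → (rkj hf hj (J.piecewise b y) : ℝ) ≤ a + t)
    (h3 : ∀ J, J ⊆ I.erase j → ∀ i ∈ I.erase j, i ∉ J →
      (rkj hf hj (Function.update (J.piecewise b y) i (y i + b i)) : ℝ) ≤ a + t) :
    (Module.finrank F (LinearMap.range (slotMap hf hj y) ⊔
      LinearMap.range (slotMap hf hj b) : Submodule F V) : ℝ) ≤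
      Module.finrank F (LinearMap.range (slotMap hf hj b)) +
        I.card * (3 * t + 2 * δ + 2 * 2 ^ I.card * t) := by
  set K : Finset ι → Submodule F Y := fun J => LinearMap.ker (slotMap hf hj (J.piecewise b y))
    with hK
  have hrk : ∀ J, (codim (K J) : ℝ) = rkj hf hj (J.piecewise b y) := fun J => by
    rw [hK]
    simp only
    rw [codim_ker]
    rfl
  have hcard : ((I.erase j).powerset.card : ℝ) = 2 ^ (I.card - 1) := by
    rw [Finset.card_powerset, Finset.card_erase_of_mem hj]
    push_cast
    rfl
  have hpow : (2 : ℝ) ^ (I.card - 1) ≤ 2 ^ I.card :=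
    pow_le_pow_right₀ (by norm_num) (Nat.sub_le _ _)
  have hbound : ∀ S : Finset (Finset ι), S ⊆ (I.erase j).powerset →
      (2 : ℝ) ^ (I.card - 1) * a - δ ≤
        codim (⨅ J ∈ S, K J) + (2 ^ (I.card - 1) - (S.card : ℝ)) * (a + t) := by
    intro S hS
    have h := sf_codim (I.erase j).powerset S hS K (a + t) (fun J hJ => by
      rw [hrk]
      exact h2 J (Finset.mem_powerset.1 hJ))
    rw [hcard] at h
    exact h1.trans h
  have hchain := chain_lin (I.erase j)
    (fun J => LinearMap.range (slotMap hf hj (J.piecewise b y)))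
    (3 * t + (δ + 2 ^ I.card * t) + (δ + 2 ^ I.card * t)) (fun J hJ i hi hiJ => by
      have hins : insert i J ⊆ I.erase j := Finset.insert_subset hi hJ
      have hne : J ≠ insert i J := fun h => hiJ (h ▸ Finset.mem_insert_self i J)
      refine step_lin _ _ a t _ _ (h2 J hJ) (h2 (insert i J) hins) ?_ ?_ ?_
      · rw [sf_add hf hj y b hi hiJ]
        exact h3 J hJ i hi hiJ
      · have h := hbound {J, insert i J} (by
          intro L hL
          rw [Finset.mem_insert, Finset.mem_singleton] at hL
          rw [Finset.mem_powerset]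
          rcases hL with rfl | rfl
          · exact hJ
          · exact hins)
        rw [Finset.card_pair hne] at h
        have e1 : (⨅ L ∈ ({J, insert i J} : Finset (Finset ι)), K L) = K J ⊓ K (insert i J) := by
          rw [Finset.iInf_insert, Finset.iInf_singleton]
        rw [e1] at h
        push_cast at h
        show 2 * a - (δ + 2 ^ I.card * t) ≤ codim (K J ⊓ K (insert i J))
        have h5 : (2 : ℝ) ^ (I.card - 1) * t ≤ 2 ^ I.card * t := mul_le_mul_of_nonneg_right hpow ht
        nlinarith
      · have h := hbound {insert i J} (by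
          intro L hL
          rw [Finset.mem_singleton] at hL
          rw [Finset.mem_powerset, hL]
          exact hins)
        rw [Finset.card_singleton] at h
        have e1 : (⨅ L ∈ ({insert i J} : Finset (Finset ι)), K L) = K (insert i J) := by
          rw [Finset.iInf_singleton]
        rw [e1, hrk] at h
        push_cast at h
        show a - (δ + 2 ^ I.card * t) ≤ rkj hf hj ((insert i J).piecewise b y)
        have h5 : (2 : ℝ) ^ (I.card - 1) * t ≤ 2 ^ I.card * t := mul_le_mul_of_nonneg_right hpow ht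
        nlinarith)
  have hE0 : slotMap hf hj ((∅ : Finset ι).piecewise b y) = slotMap hf hj y := by
    rw [Finset.piecewise_empty]
  have hE1 : slotMap hf hj ((I.erase j).piecewise b y) = slotMap hf hj b := by
    ext x
    show f (Function.update ((I.erase j).piecewise b y) j x) = f (Function.update b j x)
    refine hf.congr fun i hi => ?_
    by_cases hij : i = j
    · subst hij
      simp
    · rw [Function.update_of_ne hij, Function.update_of_ne hij,
        Finset.piecewise_eq_of_mem _ _ _ (Finset.mem_erase.2 ⟨hij, hi⟩)]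
  beta_reduce at hchain
  rw [hE0, hE1] at hchain
  refine hchain.trans ?_
  have hβ : 0 ≤ 3 * t + (δ + 2 ^ I.card * t) + (δ + 2 ^ I.card * t) := by positivity
  have hle : ((I.erase j).card : ℝ) ≤ I.card := by
    exact_mod_cast Finset.card_le_card (Finset.erase_subset j I)
  have h5 := mul_le_mul_of_nonneg_right hle hβ
  have h6 : (I.card : ℝ) * (3 * t + 2 * δ + 2 * 2 ^ I.card * t) =
      I.card * (3 * t + (δ + 2 ^ I.card * t) + (δ + 2 ^ I.card * t)) := by ring
  rw [h6]
  linarith

end PRAR
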