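import Pool.Agent.PRAR.S.B
import Pool.Agent.PRAR.S.C
import Pool.Agent.PRAR.S.D
import Pool.Agent.PRAR.S.F

/-! # Theorem S -/

set_option autoImplicit false
set_option linter.unusedSectionVars false

open scoped Classical

noncomputable section

namespace PRAR

theorem sz_exists_le_avg {α : Type*} [Fintype α] [Nonempty α] (f : α → ℝ) :
    ∃ x, avg f ≤ f x := by
  by_contra hne
  push Not at hne
  have hc : (0 : ℝ) < (Fintype.card α : ℝ) := by exact_mod_cast Fintype.card_pos
  have h1 : ∑ x, f x < ∑ _x : α, avg f :=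
    Finset.sum_lt_sum_of_nonempty Finset.univ_nonempty fun x _ => hne x
  rw [Finset.sum_const, Finset.card_univ, nsmul_eq_mul] at h1
  have h2 : (Fintype.card α : ℝ) * avg f = ∑ x, f x := by
    unfold avg
    field_simp
  linarith

theorem sz_avg_sum {α κ : Type*} [Fintype α] (s : Finset κ) (f : κ → α → ℝ) :
    avg (fun x => ∑ k ∈ s, f k x) = ∑ k ∈ s, avg (f k) := by
  unfold avg
  rw [Finset.sum_comm, Finset.sum_div]

theorem sz_avg2_sum {α β κ : Type*} [Fintype α] [Fintype β] (s : Finset κ)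
    (f : κ → α → β → ℝ) :
    avg (fun x => avg (fun y => ∑ k ∈ s, f k x y)) =
      ∑ k ∈ s, avg (fun x => avg (fun y => f k x y)) := by
  rw [← sz_avg_sum]
  congr 1
  funext x
  rw [sz_avg_sum]

theorem sz_pow_rpow {q : ℝ} (hq : 0 < q) (m : ℕ) : q⁻¹ ^ m = q ^ (-(m : ℝ)) := by
  rw [Real.rpow_neg hq.le, Real.rpow_natCast, inv_pow]

section

variable {ι : Type} [Fintype ι] {F : Type} [Field F] [Fintype F]
variable {Y V : Type} [AddCommGroup Y] [Module F Y] [Fintype Y] [AddCommGroup V] [Module F V]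
  [Fintype V]

/-- The good pairs. -/
def sz_Gd {I : Finset ι} {f : (ι → Y) → V} (hf : MLin F I f) {j : ι} (hj : j ∈ I) (a δ t : ℝ)
    (y b : ι → Y) : Prop :=
  (2 : ℝ) ^ (I.card - 1) * a - δ ≤ rg hf hj y b ∧
  (∀ J, J ⊆ I.erase j → (rkj hf hj (J.piecewise b y) : ℝ) ≤ a + t) ∧
  (∀ J, J ⊆ I.erase j → ∀ i ∈ I.erase j, i ∉ J →
      (rkj hf hj (Function.update (J.piecewise b y) i (y i + b i)) : ℝ) ≤ a + t)

theorem sz_point {I : Finset ι} {f : (ι → Y) → V} (hf : MLin F I f) {j : ι} (hj : j ∈ I)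
    (a δ t : ℝ) (y b : ι → Y) :
    (qq F)⁻¹ ^ rg hf hj y b ≤
      (qq F) ^ (-((2 : ℝ) ^ (I.card - 1) * a - δ)) * (if sz_Gd hf hj a δ t y b then 1 else 0) +
      (qq F) ^ ((2 : ℝ) ^ (I.card - 1) * a - δ) * ((qq F)⁻¹ ^ rg hf hj y b) ^ 2 +
      ∑ J ∈ (I.erase j).powerset, (if a + t ≤ rkj hf hj (J.piecewise b y) then
        (qq F)⁻¹ ^ rg hf hj y b else 0) +
      ∑ p ∈ ((I.erase j).powerset ×ˢ (I.erase j)).filter (fun p => p.2 ∉ p.1),
        (if a + t ≤ rkj hf hj (Function.update (p.1.piecewise b y) p.2 (y p.2 + b p.2)) then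
        (qq F)⁻¹ ^ rg hf hj y b else 0) := by
  have hq := qq_pos F
  have hq1 := one_lt_qq F
  set w : ℝ := (qq F)⁻¹ ^ rg hf hj y b with hw
  have hw0 : 0 < w := by positivity
  have hwr : w = (qq F) ^ (-(rg hf hj y b : ℝ)) := sz_pow_rpow hq _
  have n1 : 0 ≤ (qq F) ^ (-((2 : ℝ) ^ (I.card - 1) * a - δ)) *
      (if sz_Gd hf hj a δ t y b then (1 : ℝ) else 0) := by
    apply mul_nonneg (Real.rpow_nonneg hq.le _)
    split_ifs <;> norm_num
  have n2 : 0 ≤ (qq F) ^ ((2 : ℝ) ^ (I.card - 1) * a - δ) * w ^ 2 := by positivity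
  have n3 : 0 ≤ ∑ J ∈ (I.erase j).powerset, (if a + t ≤ rkj hf hj (J.piecewise b y) then
        w else 0) := by
    apply Finset.sum_nonneg
    intro J _
    split_ifs
    · exact hw0.le
    · exact le_refl 0
  have n4 : 0 ≤ ∑ p ∈ ((I.erase j).powerset ×ˢ (I.erase j)).filter (fun p => p.2 ∉ p.1),
        (if a + t ≤ rkj hf hj (Function.update (p.1.piecewise b y) p.2 (y p.2 + b p.2)) then
        w else 0) := by
    apply Finset.sum_nonneg
    intro p _
    split_ifs
    · exact hw0.le
    · exact le_refl 0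
  by_cases hG : sz_Gd hf hj a δ t y b
  · have h1 : w ≤ (qq F) ^ (-((2 : ℝ) ^ (I.card - 1) * a - δ)) := by
      rw [hwr]
      apply Real.rpow_le_rpow_of_exponent_le hq1.le
      linarith [hG.1]
    have h2 : (qq F) ^ (-((2 : ℝ) ^ (I.card - 1) * a - δ)) *
      (if sz_Gd hf hj a δ t y b then (1 : ℝ) else 0) =
        (qq F) ^ (-((2 : ℝ) ^ (I.card - 1) * a - δ)) := by
      rw [if_pos hG, mul_one]
    rw [h2]
    linarith
  · by_cases c1 : (2 : ℝ) ^ (I.card - 1) * a - δ ≤ rg hf hj y b
    · by_cases c2 : ∀ J, J ⊆ I.erase j → (rkj hf hj (J.piecewise b y) : ℝ) ≤ a + t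
      · have c3 : ¬ (∀ J, J ⊆ I.erase j → ∀ i ∈ I.erase j, i ∉ J →
          (rkj hf hj (Function.update (J.piecewise b y) i (y i + b i)) : ℝ) ≤ a + t) :=
          fun h => hG ⟨c1, c2, h⟩
        push Not at c3
        obtain ⟨J, hJ, i, hi, hiJ, hlt⟩ := c3
        have h1 : w ≤ ∑ p ∈ ((I.erase j).powerset ×ˢ (I.erase j)).filter (fun p => p.2 ∉ p.1),
            (if a + t ≤ rkj hf hj (Function.update (p.1.piecewise b y) p.2 (y p.2 + b p.2)) then
            w else 0) := by
          have h2 := Finset.single_le_sum (s := ((I.erase j).powerset ×ˢ (I.erase j)).filter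
            (fun p => p.2 ∉ p.1)) (f := fun p => (if a + t ≤ rkj hf hj
              (Function.update (p.1.piecewise b y) p.2 (y p.2 + b p.2)) then w else 0))
            (a := (J, i)) (by
              intro p _
              split_ifs
              · exact hw0.le
              · exact le_refl 0) (by
              rw [Finset.mem_filter, Finset.mem_product, Finset.mem_powerset]
              exact ⟨⟨hJ, hi⟩, hiJ⟩)
          refine le_trans ?_ h2
          rw [if_pos hlt.le]
        linarith
      · push Not at c2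
        obtain ⟨J, hJ, hlt⟩ := c2
        have h1 : w ≤ ∑ J ∈ (I.erase j).powerset, (if a + t ≤ rkj hf hj (J.piecewise b y) then
            w else 0) := by
          have h2 := Finset.single_le_sum (s := (I.erase j).powerset)
            (f := fun J => (if a + t ≤ rkj hf hj (J.piecewise b y) then w else 0))
            (a := J) (by
              intro p _
              split_ifs
              · exact hw0.le
              · exact le_refl 0) (Finset.mem_powerset.2 hJ)
          refine le_trans ?_ h2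
          rw [if_pos hlt.le]
        linarith
    · push Not at c1
      have h1 : w ≤ (qq F) ^ ((2 : ℝ) ^ (I.card - 1) * a - δ) * w ^ 2 := by
        have h2 : 1 ≤ (qq F) ^ ((2 : ℝ) ^ (I.card - 1) * a - δ) * w := by
          rw [hwr, ← Real.rpow_add hq]
          apply Real.one_le_rpow hq1.le
          linarith
        calc w = 1 * w := (one_mul w).symm
          _ ≤ ((qq F) ^ ((2 : ℝ) ^ (I.card - 1) * a - δ) * w) * w :=
            mul_le_mul_of_nonneg_right h2 hw0.le
          _ = _ := by ring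
      linarith

theorem sz_count (I : Finset ι) (j : ι) :
    ((I.erase j).powerset.card : ℝ) +
      ((((I.erase j).powerset ×ˢ (I.erase j)).filter (fun p => p.2 ∉ p.1)).card : ℝ) ≤
      2 ^ (2 * I.card + 1) := by
  have h1 : (I.erase j).card ≤ I.card := Finset.card_erase_le
  have h2 : (I.erase j).powerset.card ≤ 2 ^ I.card := by
    rw [Finset.card_powerset]
    exact Nat.pow_le_pow_right (by norm_num) h1
  have h3 : (((I.erase j).powerset ×ˢ (I.erase j)).filter (fun p => p.2 ∉ p.1)).card ≤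
      2 ^ I.card * 2 ^ I.card := by
    refine (Finset.card_filter_le _ _).trans ?_
    rw [Finset.card_product]
    exact Nat.mul_le_mul h2 (h1.trans (Nat.lt_two_pow_self).le)
  have h4 : (I.erase j).powerset.card +
      (((I.erase j).powerset ×ˢ (I.erase j)).filter (fun p => p.2 ∉ p.1)).card ≤
      2 ^ (2 * I.card + 1) := by
    have h5 : 1 ≤ 2 ^ I.card := Nat.one_le_two_pow
    have h6 : 2 ^ (2 * I.card + 1) = 2 * (2 ^ I.card * 2 ^ I.card) := by
      rw [pow_succ, two_mul, pow_add]; ring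
    rw [h6]
    nlinarith
  exact_mod_cast h4

theorem sz_good {I : Finset ι} {f : (ι → Y) → V} (hf : MLin F I f) {j : ι} (hj : j ∈ I)
    {a κ : ℝ}
    (h0 : prob (fun y : ι → Y => f y = 0) = (qq F) ^ (-a))
    (h3 : ZU f 3 ≤ (qq F) ^ (-((3 : ℝ) ^ I.card * a) + κ)) :
    (qq F) ^ (-(κ + 2)) / 2 ≤ avg (fun y : ι → Y => avg (fun b : ι → Y =>
      if sz_Gd hf hj a (κ + 2) (κ + 4 * I.card + 6) y b then (1 : ℝ) else 0)) := by
  have hq := qq_pos F
  have hq1 := one_lt_qq F
  have hq2 := two_le_qq F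
  set t : ℝ := κ + 4 * I.card + 6 with ht
  set δ : ℝ := κ + 2 with hδ
  set n := I.card - 1 with hn
  have hk : I.card = n + 1 := by
    have : 0 < I.card := Finset.card_pos.2 ⟨j, hj⟩
    omega
  set W0 : ℝ := (qq F) ^ (-((2 : ℝ) ^ n * a)) with hW0
  have hW0p : 0 < W0 := Real.rpow_pos_of_pos hq _
  -- total weight
  have e1 : W0 ≤ avg (fun y : ι → Y => avg (fun b : ι → Y => (qq F)⁻¹ ^ rg hf hj y b)) := by
    refine le_trans (le_of_eq ?_) (S_F1 hf hj)
    rw [h0, ← Real.rpow_natCast, ← Real.rpow_mul hq.le, hW0]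
    congr 1
    push_cast
    ring
  -- pairs of small codimension
  have e2 : avg (fun y : ι → Y => avg (fun b : ι → Y =>
      (qq F) ^ ((2 : ℝ) ^ n * a - δ) * ((qq F)⁻¹ ^ rg hf hj y b) ^ 2)) ≤ W0 / 4 := by
    simp only [avg_const_mul]
    have h4 := S_F2 hf hj h0 h3
    calc (qq F) ^ ((2 : ℝ) ^ n * a - δ) * _
        ≤ (qq F) ^ ((2 : ℝ) ^ n * a - δ) * (qq F) ^ (-((2 : ℝ) ^ I.card * a) + κ) :=
          mul_le_mul_of_nonneg_left h4 (Real.rpow_nonneg hq.le _)
      _ = W0 * (qq F) ^ (-2 : ℝ) := by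
          rw [← Real.rpow_add hq, hW0, ← Real.rpow_add hq]
          congr 1
          rw [hk, pow_succ, hδ]
          ring
      _ ≤ W0 / 4 := by
          have h5 : (qq F) ^ (-2 : ℝ) ≤ 1 / 4 := by
            rw [Real.rpow_neg hq.le, one_div]
            apply inv_anti₀ (by norm_num)
            rw [show (2 : ℝ) = ((2 : ℕ) : ℝ) by norm_num, Real.rpow_natCast]
            nlinarith
          nlinarith
  -- vertices of large rank
  have hone : avg (fun y : ι → Y => avg (fun b : ι → Y =>
      if a + t ≤ rkj hf hj y then (qq F)⁻¹ ^ rg hf hj y b else 0)) ≤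
        W0 / 2 ^ (2 * I.card + 3) := by
    refine (S_F3 hf hj h0 h3 t).trans ?_
    have h5 : (qq F) ^ (-((2 : ℝ) ^ (I.card - 1) * a) + (κ - t) / 2) =
        W0 * (qq F) ^ (-((2 * I.card + 3 : ℕ) : ℝ)) := by
      rw [hW0, ← Real.rpow_add hq]
      congr 1
      rw [ht]
      push_cast
      ring
    rw [h5, ← sz_pow_rpow hq, div_eq_mul_inv, ← inv_pow]
    apply mul_le_mul_of_nonneg_left _ hW0p.le
    apply pow_le_pow_left₀ (by positivity)
    exact inv_anti₀ (by norm_num) hq2
  have e3 : avg (fun y : ι → Y => avg (fun b : ι → Y =>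
      ∑ J ∈ (I.erase j).powerset, (if a + t ≤ rkj hf hj (J.piecewise b y) then
        (qq F)⁻¹ ^ rg hf hj y b else 0))) ≤
      (I.erase j).powerset.card * (W0 / 2 ^ (2 * I.card + 3)) := by
    rw [sz_avg2_sum, ← nsmul_eq_mul]
    apply Finset.sum_le_card_nsmul
    intro J _
    rw [S_vertex hf hj J (a + t)]
    exact hone
  have e4 : avg (fun y : ι → Y => avg (fun b : ι → Y =>
      ∑ p ∈ ((I.erase j).powerset ×ˢ (I.erase j)).filter (fun p => p.2 ∉ p.1),
        (if a + t ≤ rkj hf hj (Function.update (p.1.piecewise b y) p.2 (y p.2 + b p.2)) then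
        (qq F)⁻¹ ^ rg hf hj y b else 0))) ≤
      (((I.erase j).powerset ×ˢ (I.erase j)).filter (fun p => p.2 ∉ p.1)).card *
        (W0 / 2 ^ (2 * I.card + 3)) := by
    rw [sz_avg2_sum, ← nsmul_eq_mul]
    apply Finset.sum_le_card_nsmul
    intro p hp
    rw [S_sumvertex hf hj p.1 p.2 (Finset.mem_filter.1 hp).2 (a + t)]
    exact hone
  have e5 := sz_count I j
  -- the total
  have e6 : avg (fun y : ι → Y => avg (fun b : ι → Y => (qq F)⁻¹ ^ rg hf hj y b)) ≤
      (qq F) ^ (-((2 : ℝ) ^ n * a - δ)) * avg (fun y : ι → Y => avg (fun b : ι → Y =>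
        if sz_Gd hf hj a δ t y b then (1 : ℝ) else 0)) + W0 / 4 +
      (I.erase j).powerset.card * (W0 / 2 ^ (2 * I.card + 3)) +
      (((I.erase j).powerset ×ˢ (I.erase j)).filter (fun p => p.2 ∉ p.1)).card *
        (W0 / 2 ^ (2 * I.card + 3)) := by
    calc _ ≤ avg (fun y : ι → Y => avg (fun b : ι → Y =>
      (qq F) ^ (-((2 : ℝ) ^ n * a - δ)) * (if sz_Gd hf hj a δ t y b then 1 else 0) +
      (qq F) ^ ((2 : ℝ) ^ n * a - δ) * ((qq F)⁻¹ ^ rg hf hj y b) ^ 2 +
      ∑ J ∈ (I.erase j).powerset, (if a + t ≤ rkj hf hj (J.piecewise b y) then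
        (qq F)⁻¹ ^ rg hf hj y b else 0) +
      ∑ p ∈ ((I.erase j).powerset ×ˢ (I.erase j)).filter (fun p => p.2 ∉ p.1),
        (if a + t ≤ rkj hf hj (Function.update (p.1.piecewise b y) p.2 (y p.2 + b p.2)) then
        (qq F)⁻¹ ^ rg hf hj y b else 0))) := by
          apply avg_mono
          intro y
          apply avg_mono
          intro b
          exact sz_point hf hj a δ t y b
      _ = (qq F) ^ (-((2 : ℝ) ^ n * a - δ)) * avg (fun y : ι → Y => avg (fun b : ι → Y =>
        if sz_Gd hf hj a δ t y b then (1 : ℝ) else 0)) +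
        avg (fun y : ι → Y => avg (fun b : ι → Y =>
          (qq F) ^ ((2 : ℝ) ^ n * a - δ) * ((qq F)⁻¹ ^ rg hf hj y b) ^ 2)) +
        avg (fun y : ι → Y => avg (fun b : ι → Y =>
          ∑ J ∈ (I.erase j).powerset, (if a + t ≤ rkj hf hj (J.piecewise b y) then
            (qq F)⁻¹ ^ rg hf hj y b else 0))) +
        avg (fun y : ι → Y => avg (fun b : ι → Y =>
          ∑ p ∈ ((I.erase j).powerset ×ˢ (I.erase j)).filter (fun p => p.2 ∉ p.1),
            (if a + t ≤ rkj hf hj (Function.update (p.1.piecewise b y) p.2 (y p.2 + b p.2)) then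
            (qq F)⁻¹ ^ rg hf hj y b else 0))) := by
          simp only [avg_add, avg_const_mul]
      _ ≤ _ := by linarith
  have e7 : (I.erase j).powerset.card * (W0 / 2 ^ (2 * I.card + 3)) +
      (((I.erase j).powerset ×ˢ (I.erase j)).filter (fun p => p.2 ∉ p.1)).card *
        (W0 / 2 ^ (2 * I.card + 3)) ≤ W0 / 4 := by
    rw [← add_mul]
    calc _ ≤ (2 : ℝ) ^ (2 * I.card + 1) * (W0 / 2 ^ (2 * I.card + 3)) :=
          mul_le_mul_of_nonneg_right e5 (by positivity)
      _ = W0 / 4 := by
          have h9 : (2 : ℝ) ^ (2 * I.card + 3) = 2 ^ (2 * I.card + 1) * 4 := by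
            rw [show 2 * I.card + 3 = (2 * I.card + 1) + 2 by ring, pow_add]
            norm_num
          have h10 : (0 : ℝ) < 2 ^ (2 * I.card + 1) := by positivity
          rw [h9]
          field_simp
  have e8 : (qq F) ^ (-((2 : ℝ) ^ n * a - δ)) = W0 * (qq F) ^ δ := by
    rw [hW0, ← Real.rpow_add hq]
    congr 1
    ring
  rw [e8] at e6
  set P := avg (fun y : ι → Y => avg (fun b : ι → Y =>
        if sz_Gd hf hj a δ t y b then (1 : ℝ) else 0)) with hP
  have e9 : W0 * (1 / 2) ≤ W0 * ((qq F) ^ δ * P) := by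
    have : W0 * ((qq F) ^ δ * P) = W0 * (qq F) ^ δ * P := by ring
    rw [this]
    linarith
  have e10 : 1 / 2 ≤ (qq F) ^ δ * P := le_of_mul_le_mul_left e9 hW0p
  have hqd : 0 < (qq F) ^ δ := Real.rpow_pos_of_pos hq _
  rw [Real.rpow_neg hq.le, div_eq_mul_inv, ← mul_inv, inv_eq_one_div, div_le_iff₀ (by positivity)]
  linarith

end

theorem thmS (ι : Type) [Fintype ι] (I : Finset ι) : StmtS ι I := by
  set k := I.card with hk
  refine ⟨(4 * k + 6) + 3 + k * ((3 + 2 * 2 ^ k) * (4 * k + 6) + 4), ?_⟩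
  intro F _ _ Y V _ _ _ _ _ _ f hf a κ hκ h0 h3
  have hq := qq_pos F
  have hq1 := one_lt_qq F
  have hq2 := two_le_qq F
  set C : ℕ := (4 * k + 6) + 3 + k * ((3 + 2 * 2 ^ k) * (4 * k + 6) + 4) with hC
  have hCκ : (0 : ℝ) ≤ (C : ℝ) * (κ + 1) := by positivity
  rcases Finset.eq_empty_or_nonempty I with hI | ⟨j, hj⟩
  · -- constant maps
    have hconst : ∀ y y' : ι → Y, f y = f y' := by
      intro y y'
      refine hf.congr ?_
      intro i hi
      rw [hI] at hi
      exact absurd hi (Finset.notMem_empty i)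
    have hpos : 0 < prob (fun y : ι → Y => f y = 0) := by
      rw [h0]
      exact Real.rpow_pos_of_pos hq _
    obtain ⟨y0, hy0⟩ := exists_of_prob_pos hpos
    have hz : ∀ y, f y = 0 := fun y => (hconst y y0).trans hy0
    have hp1 : prob (fun y : ι → Y => f y = 0) = 1 := prob_le_of_equiv_one hz
    have ha : a = 0 := by
      rw [hp1] at h0
      by_contra hne
      rcases lt_or_gt_of_ne hne with h | h
      · have := Real.one_lt_rpow hq1 (neg_pos.2 h)
        linarith
      · have := Real.rpow_lt_one_of_one_lt_of_neg hq1 (neg_lt_zero.2 h)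
        linarith
    refine ⟨⊥, ?_, ?_⟩
    · rw [finrank_bot, ha]
      push_cast
      linarith
    · have hp2 : prob (fun y : ι → Y => f y ∈ (⊥ : Submodule F V)) = 1 :=
        prob_le_of_equiv_one fun y => by rw [Submodule.mem_bot]; exact hz y
      rw [hp2]
      exact Real.rpow_le_one_of_one_le_of_nonpos hq1.le (by linarith)
  · set t : ℝ := κ + 4 * I.card + 6 with ht
    set δ : ℝ := κ + 2 with hδ
    have hgood := sz_good hf hj h0 h3
    rw [← hδ, ← ht, avg_comm] at hgood
    obtain ⟨b, hb⟩ := sz_exists_le_avg (fun b : ι → Y => avg (fun y : ι → Y =>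
      if sz_Gd hf hj a δ t y b then (1 : ℝ) else 0))
    have hb2 := hgood.trans hb
    rw [← prob_eq_avg] at hb2
    have hqd : 0 < (qq F) ^ (-δ) := Real.rpow_pos_of_pos hq _
    have hpos : 0 < prob (fun y : ι → Y => sz_Gd hf hj a δ t y b) := by linarith
    obtain ⟨y0, hy0⟩ := exists_of_prob_pos hpos
    have hslot : slotMap hf hj ((I.erase j).piecewise b y0) = slotMap hf hj b := by
      apply LinearMap.ext
      intro x
      show f (Function.update ((I.erase j).piecewise b y0) j x) = f (Function.update b j x)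
      refine hf.congr ?_
      intro i hi
      by_cases hij : i = j
      · subst hij
        rw [Function.update_self, Function.update_self]
      · rw [Function.update_of_ne hij, Function.update_of_ne hij,
          Finset.piecewise_eq_of_mem _ _ _ (Finset.mem_erase.2 ⟨hij, hi⟩)]
    have hE1 : (Module.finrank F (LinearMap.range (slotMap hf hj b)) : ℝ) ≤ a + t := by
      have h5 := hy0.2.1 (I.erase j) le_rfl
      unfold rkj at h5
      rw [hslot] at h5
      exact h5
    have ht0 : 0 ≤ t := by rw [ht]; positivity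
    have hδ0 : 0 ≤ δ := by rw [hδ]; positivity
    set D : ℝ := I.card * (3 * t + 2 * δ + 2 * 2 ^ I.card * t) with hD
    have hD0 : 0 ≤ D := by rw [hD]; positivity
    have hkR : (I.card : ℝ) = (k : ℝ) := rfl
    have htC : t ≤ (4 * k + 6 : ℝ) * (κ + 1) := by
      rw [ht, hkR]
      have : 0 ≤ (k : ℝ) * κ := by positivity
      nlinarith
    have hbound : 1 + δ + D ≤ (C : ℝ) * (κ + 1) := by
      have h6 : D ≤ (k : ℝ) * (((3 + 2 * 2 ^ k) * (4 * k + 6) + 4) * (κ + 1)) := by
        rw [hD, hkR]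
        apply mul_le_mul_of_nonneg_left _ (by positivity)
        have h7 : (3 : ℝ) * t + 2 * 2 ^ I.card * t ≤
            (3 + 2 * 2 ^ k) * ((4 * k + 6 : ℝ) * (κ + 1)) := by
          have h8 : (3 : ℝ) * t + 2 * 2 ^ I.card * t = (3 + 2 * 2 ^ k) * t := by
            rw [← hk]; ring
          rw [h8]
          exact mul_le_mul_of_nonneg_left htC (by positivity)
        have h9 : 2 * δ ≤ 4 * (κ + 1) := by rw [hδ]; linarith
        linarith
      rw [hC]
      push_cast
      have h10 : 1 + δ ≤ 3 * (κ + 1) := by rw [hδ]; linarith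
      have h11 : 0 ≤ (4 * (k : ℝ) + 6) * (κ + 1) := by positivity
      linarith
    refine ⟨LinearMap.range (slotMap hf hj b), ?_, ?_⟩
    · refine hE1.trans ?_
      have h12 : t ≤ (C : ℝ) * (κ + 1) := by
        refine htC.trans ?_
        apply mul_le_mul_of_nonneg_right _ (by linarith)
        rw [hC]
        push_cast
        have h13 : (0 : ℝ) ≤ (k : ℝ) * ((3 + 2 * 2 ^ k) * (4 * k + 6) + 4) := by positivity
        linarith
      linarith
    · set E := LinearMap.range (slotMap hf hj b) with hE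
      set c : ℕ := ⌊D⌋₊ with hc
      have hcD : (c : ℝ) ≤ D := Nat.floor_le hD0
      have hpt : ∀ y : ι → Y, (qq F)⁻¹ ^ c * (if sz_Gd hf hj a δ t y b then (1 : ℝ) else 0) ≤
          prob (fun u : Y => f (Function.update y j u) ∈ E) := by
        intro y
        by_cases hG : sz_Gd hf hj a δ t y b
        · rw [if_pos hG, mul_one]
          have h14 := good_pair hf hj y b a t δ ht0 hδ0 hG.1 hG.2.1 hG.2.2
          have h15 : Module.finrank F (LinearMap.range (slotMap hf hj y) ⊔ E : Submodule F V) ≤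
              Module.finrank F E + c := by
            have h16 : (Module.finrank F (LinearMap.range (slotMap hf hj y) ⊔ E :
                Submodule F V) : ℝ) - Module.finrank F E ≤ D := by
              rw [hD]
              linarith
            have h17 : Module.finrank F (LinearMap.range (slotMap hf hj y) ⊔ E :
                Submodule F V) - Module.finrank F E ≤ c := by
              apply Nat.le_floor
              refine le_trans ?_ h16
              have h18 : Module.finrank F E ≤ Module.finrank F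
                (LinearMap.range (slotMap hf hj y) ⊔ E : Submodule F V) :=
                Submodule.finrank_mono le_sup_right
              rw [Nat.cast_sub h18]
            omega
          exact prob_in (slotMap hf hj y) E c h15
        · rw [if_neg hG, mul_zero]
          exact prob_nonneg _
      have h20 : (qq F)⁻¹ ^ c * prob (fun y : ι → Y => sz_Gd hf hj a δ t y b) ≤
          prob (fun y : ι → Y => f y ∈ E) := by
        rw [← prob_update j (fun y => f y ∈ E), prob_eq_avg (fun y : ι → Y =>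
          sz_Gd hf hj a δ t y b), ← avg_const_mul]
        exact avg_mono hpt
      refine le_trans ?_ h20
      have h21 : (qq F) ^ (-(1 + δ + D)) ≤ (qq F)⁻¹ ^ c * ((qq F) ^ (-δ) / 2) := by
        have h22 : (qq F) ^ (-(1 + δ + D)) = (qq F) ^ (-D) * ((qq F) ^ (-δ) * (qq F) ^ (-1 : ℝ)) := by
          rw [← Real.rpow_add hq, ← Real.rpow_add hq]
          congr 1
          ring
        rw [h22, sz_pow_rpow hq]
        have h23 : (qq F) ^ (-D) ≤ (qq F) ^ (-(c : ℝ)) :=
          Real.rpow_le_rpow_of_exponent_le hq1.le (by linarith)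
        have h24 : (qq F) ^ (-1 : ℝ) ≤ 1 / 2 := by
          rw [Real.rpow_neg hq.le, Real.rpow_one, one_div]
          exact inv_anti₀ (by norm_num) hq2
        have h25 : (qq F) ^ (-δ) * (qq F) ^ (-1 : ℝ) ≤ (qq F) ^ (-δ) / 2 := by
          have := mul_le_mul_of_nonneg_left h24 hqd.le
          linarith
        exact mul_le_mul h23 h25 (by positivity) (by positivity)
      calc (qq F) ^ (-((C : ℝ) * (κ + 1))) ≤ (qq F) ^ (-(1 + δ + D)) :=
            Real.rpow_le_rpow_of_exponent_le hq1.le (by linarith)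
        _ ≤ (qq F)⁻¹ ^ c * ((qq F) ^ (-δ) / 2) := h21
        _ ≤ _ := mul_le_mul_of_nonneg_left hb2 (by positivity)

end PRAR
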