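import Pool.Agent.PRAR.S.Def

/-! # Section 2: vertex sets of the 3-grid -/

set_option autoImplicit false
set_option linter.unusedSectionVars false

open scoped Classical

noncomputable section

namespace PRAR

variable {ι : Type} [Fintype ι] {F : Type} [Field F] [Fintype F]
variable {Y V : Type} [AddCommGroup Y] [Module F Y] [Fintype Y] [AddCommGroup V] [Module F V]
  [Fintype V]

theorem sa_inj (α : ι → Fin 3) : Function.Injective fun i : ι => (i, α i) :=
  fun _ _ h => (Prod.mk.inj h).1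

theorem sa_sl {I : Finset ι} {f : (ι → Y) → V} (hf : MLin F I f) (α : ι → Fin 3) :
    SL F (fun yb : ι × Fin 3 → Y => f (fun i => yb (i, α i)) = 0) :=
  (hf.reindex (fun i => (i, α i)) (sa_inj α).injOn).sl

theorem sa_corr_gen {σ : Type} [Fintype σ] (inst : Fintype (σ → Y)) {W W' : (σ → Y) → Prop}
    (h : SL F W) (h' : SL F W') :
    @prob _ inst W * @prob _ inst W' ≤ @prob _ inst (fun y => W y ∧ W' y) := by
  have key : ∀ i1 : Fintype (σ → Y), i1 = inst →
      @prob _ i1 W * @prob _ i1 W' ≤ @prob _ i1 (fun y => W y ∧ W' y) →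
      @prob _ inst W * @prob _ inst W' ≤ @prob _ inst (fun y => W y ∧ W' y) := by
    rintro _ rfl h
    exact h
  exact key _ (Subsingleton.elim _ _) (corr h h')

theorem sa_corr {W W' : (ι × Fin 3 → Y) → Prop} (h : SL F W) (h' : SL F W') :
    prob W * prob W' ≤ prob (fun y => W y ∧ W' y) :=
  sa_corr_gen _ h h'

theorem sa_corr_prod_gen {σ : Type} [Fintype σ] (inst : Fintype (σ → Y)) {κ : Type*}
    (s : Finset κ) {W : κ → (σ → Y) → Prop} (h : ∀ k ∈ s, SL F (W k)) :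
    ∏ k ∈ s, @prob _ inst (W k) ≤ @prob _ inst (fun y => ∀ k ∈ s, W k y) := by
  have key : ∀ i1 : Fintype (σ → Y), i1 = inst →
      ∏ k ∈ s, @prob _ i1 (W k) ≤ @prob _ i1 (fun y => ∀ k ∈ s, W k y) →
      ∏ k ∈ s, @prob _ inst (W k) ≤ @prob _ inst (fun y => ∀ k ∈ s, W k y) := by
    rintro _ rfl h
    exact h
  exact key _ (Subsingleton.elim _ _) (corr_prod s h)

theorem sa_corr_prod {κ : Type*} (s : Finset κ) {W : κ → (ι × Fin 3 → Y) → Prop}
    (h : ∀ k ∈ s, SL F (W k)) : ∏ k ∈ s, prob (W k) ≤ prob (fun y => ∀ k ∈ s, W k y) :=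
  sa_corr_prod_gen _ s h

theorem sa_comp_gen {σ τ : Type} [Fintype σ] [Fintype τ] (inst : Fintype (σ → Y))
    (inst' : Fintype (τ → Y)) (e : τ → σ) (he : Function.Injective e) (p : (τ → Y) → Prop) :
    @prob _ inst (fun y : σ → Y => p (fun t => y (e t))) = @prob _ inst' p := by
  have key : ∀ (i1 : Fintype (σ → Y)) (i2 : Fintype (τ → Y)), i1 = inst → i2 = inst' →
      @prob _ i1 (fun y : σ → Y => p (fun t => y (e t))) = @prob _ i2 p →
      @prob _ inst (fun y : σ → Y => p (fun t => y (e t))) = @prob _ inst' p := by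
    rintro _ _ rfl rfl h
    exact h
  exact key _ _ (Subsingleton.elim _ _) (Subsingleton.elim _ _) (prob_comp_inj e he p)

theorem sa_comp_inj (e : ι → ι × Fin 3) (he : Function.Injective e) (p : (ι → Y) → Prop) :
    prob (fun y : ι × Fin 3 → Y => p (fun t => y (e t))) = prob p :=
  sa_comp_gen _ _ e he p

theorem Zv_ge {I : Finset ι} {f : (ι → Y) → V} (hf : MLin F I f) (𝒜 : Finset (ι → Fin 3)) :
    prob (fun y : ι → Y => f y = 0) ^ 𝒜.card ≤ Zv f 𝒜 := by
  have h1 := sa_corr_prod (F := F) 𝒜 (W := fun (α : ι → Fin 3) (yb : ι × Fin 3 → Y) =>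
    f (fun i => yb (i, α i)) = 0) (fun α _ => sa_sl hf α)
  have h2 : ∀ α ∈ 𝒜, prob (fun yb : ι × Fin 3 → Y => f (fun i => yb (i, α i)) = 0) =
      prob (fun y : ι → Y => f y = 0) := fun α _ =>
    sa_comp_inj (fun i => (i, α i)) (sa_inj α) (fun y : ι → Y => f y = 0)
  rw [Finset.prod_congr rfl h2, Finset.prod_const] at h1
  exact h1

theorem card_full (I : Finset ι) : (full I).card = 3 ^ I.card := by
  have h1 : full I = Fintype.piFinset
      (fun i => if i ∈ I then (Finset.univ : Finset (Fin 3)) else {0}) := by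
    ext α
    simp only [full, Finset.mem_filter, Finset.mem_univ, true_and, Fintype.mem_piFinset]
    refine forall_congr' fun i => ?_
    by_cases hi : i ∈ I
    · simp [hi]
    · simp [hi]
  rw [h1, Fintype.card_piFinset]
  have h2 : ∀ i : ι, (if i ∈ I then (Finset.univ : Finset (Fin 3)) else {0}).card =
      if i ∈ I then 3 else 1 := by
    intro i
    by_cases hi : i ∈ I
    · simp [hi]
    · simp [hi]
  simp only [h2]
  rw [Finset.prod_ite_mem, Finset.univ_inter, Finset.prod_const]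

theorem Zv_full {I : Finset ι} {f : (ι → Y) → V} (hf : MLin F I f) : Zv f (full I) = ZU f 3 := by
  unfold Zv ZU
  refine bac_transfer _ _ (Equiv.curry ι (Fin 3) Y) _ _ fun yb => ?_
  constructor
  · intro h α
    have h1 := h (I.piecewise α 0) (by
      simp only [full, Finset.mem_filter, Finset.mem_univ, true_and]
      intro i hi
      rw [Finset.piecewise_eq_of_notMem _ _ _ hi]
      rfl)
    rw [← h1]
    refine hf.congr fun i hi => ?_
    rw [Finset.piecewise_eq_of_mem _ _ _ hi]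
    rfl
  · intro h α _
    exact h α

theorem sa_SL_Zv {I : Finset ι} {f : (ι → Y) → V} (hf : MLin F I f) (𝒜 : Finset (ι → Fin 3)) :
    SL F (fun yb : ι × Fin 3 → Y => ∀ α : {α // α ∈ 𝒜}, f (fun i => yb (i, α.1 i)) = 0) :=
  SL.forall fun α => sa_sl hf α.1

theorem sa_Zv (f : (ι → Y) → V) (𝒜 : Finset (ι → Fin 3)) :
    Zv f 𝒜 = prob (fun yb : ι × Fin 3 → Y =>
      ∀ α : {α // α ∈ 𝒜}, f (fun i => yb (i, α.1 i)) = 0) := by
  unfold Zv
  exact prob_congr fun yb => ⟨fun h α => h α.1 α.2, fun h α hα => h ⟨α, hα⟩⟩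

theorem sa_mul {I : Finset ι} {f : (ι → Y) → V} (hf : MLin F I f) (𝒜 ℬ : Finset (ι → Fin 3)) :
    Zv f 𝒜 * Zv f ℬ ≤ Zv f (𝒜 ∪ ℬ) := by
  rw [sa_Zv f 𝒜, sa_Zv f ℬ]
  refine (sa_corr (sa_SL_Zv hf 𝒜) (sa_SL_Zv hf ℬ)).trans ?_
  unfold Zv
  refine prob_mono fun yb h α hα => ?_
  rcases Finset.mem_union.1 hα with h1 | h1
  · exact h.1 ⟨α, h1⟩
  · exact h.2 ⟨α, h1⟩

theorem Zv_le {I : Finset ι} {f : (ι → Y) → V} (hf : MLin F I f) {a κ : ℝ}
    (h0 : prob (fun y : ι → Y => f y = 0) = (qq F) ^ (-a))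
    (h3 : ZU f 3 ≤ (qq F) ^ (-((3 : ℝ) ^ I.card * a) + κ)) (𝒜 : Finset (ι → Fin 3))
    (hA : 𝒜 ⊆ full I) : Zv f 𝒜 ≤ (qq F) ^ (-((𝒜.card : ℝ) * a) + κ) := by
  have hq := qq_pos F
  have h1 := sa_mul hf 𝒜 (full I \ 𝒜)
  rw [Finset.union_sdiff_of_subset hA, Zv_full hf] at h1
  have h2 := Zv_ge hf (full I \ 𝒜)
  rw [h0, ← Real.rpow_natCast, ← Real.rpow_mul hq.le] at h2
  have hc : ((full I \ 𝒜).card : ℝ) = (3 : ℝ) ^ I.card - 𝒜.card := by
    rw [Finset.cast_card_sdiff hA, card_full]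
    push_cast
    rfl
  rw [hc] at h2
  have h4 : 0 ≤ Zv f 𝒜 := prob_nonneg _
  have h5 : Zv f 𝒜 * (qq F) ^ (-a * ((3 : ℝ) ^ I.card - 𝒜.card)) ≤
      (qq F) ^ (-((3 : ℝ) ^ I.card * a) + κ) :=
    ((mul_le_mul_of_nonneg_left h2 h4).trans h1).trans h3
  have h6 : (qq F) ^ (-((3 : ℝ) ^ I.card * a) + κ) =
      (qq F) ^ (-((𝒜.card : ℝ) * a) + κ) * (qq F) ^ (-a * ((3 : ℝ) ^ I.card - 𝒜.card)) := by
    rw [← Real.rpow_add hq]
    congr 1
    ring
  rw [h6] at h5
  exact le_of_mul_le_mul_right h5 (Real.rpow_pos_of_pos hq _)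

end PRAR
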