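import Pool.Agent.PRAR.S.A

/-! # Section 2: (F1), (F2) -/

set_option autoImplicit false
set_option linter.unusedSectionVars false

open scoped Classical

noncomputable section

namespace PRAR

variable {ι : Type} [Fintype ι] {F : Type} [Field F] [Fintype F]
variable {Y V : Type} [AddCommGroup Y] [Module F Y] [Fintype Y] [AddCommGroup V] [Module F V]
  [Fintype V]

/-- The three copies of a grid. -/
def sb_equiv (ι Y : Type) : (ι × Fin 3 → Y) ≃ (ι → Y) × ((ι → Y) × (ι → Y)) where
  toFun yb := (fun i => yb (i, 0), fun i => yb (i, 1), fun i => yb (i, 2))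
  invFun p := fun x => (![p.1, p.2.1, p.2.2] x.2) x.1
  left_inv := by
    intro yb
    funext x
    obtain ⟨i, c⟩ := x
    fin_cases c <;> rfl
  right_inv := by
    rintro ⟨y, b, b'⟩
    rfl

theorem sb_prob (P : (ι → Y) → (ι → Y) → (ι → Y) → Prop) :
    prob (fun yb : ι × Fin 3 → Y =>
      P (fun i => yb (i, 0)) (fun i => yb (i, 1)) (fun i => yb (i, 2))) =
      avg (fun y : ι → Y => avg (fun b : ι → Y => prob (fun b' : ι → Y => P y b b'))) := by
  have h1 := prob_equiv (sb_equiv ι Y) (fun p : (ι → Y) × ((ι → Y) × (ι → Y)) =>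
    P p.1 p.2.1 p.2.2)
  have h2 : prob (fun yb : ι × Fin 3 → Y =>
      P (fun i => yb (i, 0)) (fun i => yb (i, 1)) (fun i => yb (i, 2))) =
      prob (fun p : (ι → Y) × ((ι → Y) × (ι → Y)) => P p.1 p.2.1 p.2.2) := by
    rw [← h1]
    exact prob_congr fun yb => Iff.rfl
  rw [h2, prob_prod]
  congr 1
  funext y
  rw [prob_prod]

theorem sb_prob2 (P : (ι → Y) → (ι → Y) → Prop) :
    prob (fun yb : ι × Fin 3 → Y => P (fun i => yb (i, 0)) (fun i => yb (i, 1))) =
      avg (fun y : ι → Y => prob (fun b : ι → Y => P y b)) := by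
  rw [sb_prob (fun y b _ => P y b)]
  congr 1
  funext y
  rw [prob_eq_avg]
  congr 1
  funext b
  rw [prob_eq_avg, avg_const]

/-- The indicator vertex of a set. -/
def sb_ind (J : Finset ι) : ι → Fin 3 := fun i => if i ∈ J then 1 else 0

theorem sb_ind_inj : Function.Injective (sb_ind : Finset ι → ι → Fin 3) := by
  intro J K h
  ext i
  have h1 := congrFun h i
  unfold sb_ind at h1
  by_cases hJ : i ∈ J <;> by_cases hK : i ∈ K <;> simp_all

/-- The vertices with support in `S` and values `0`, `1`. -/
def sb_set (S : Finset ι) : Finset (ι → Fin 3) := S.powerset.image sb_ind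

theorem sb_set_card (S : Finset ι) : (sb_set S).card = 2 ^ S.card := by
  unfold sb_set
  rw [Finset.card_image_of_injective _ sb_ind_inj, Finset.card_powerset]

theorem sb_set_full {S I : Finset ι} (h : S ⊆ I) : sb_set S ⊆ full I := by
  intro α hα
  unfold sb_set at hα
  obtain ⟨J, hJ, rfl⟩ := Finset.mem_image.1 hα
  unfold full
  rw [Finset.mem_filter]
  refine ⟨Finset.mem_univ _, fun i hi => ?_⟩
  unfold sb_ind
  rw [if_neg fun h1 => hi (h (Finset.mem_powerset.1 hJ h1))]

theorem sb_Zv (f : (ι → Y) → V) (S : Finset ι) :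
    Zv f (sb_set S) =
      avg (fun y : ι → Y => prob (fun b : ι → Y => ∀ J ∈ S.powerset, f (J.piecewise b y) = 0)) := by
  rw [← sb_prob2 (fun y b => ∀ J ∈ S.powerset, f (J.piecewise b y) = 0)]
  unfold Zv
  refine prob_congr fun yb => ?_
  have key : ∀ J : Finset ι, (fun i => yb (i, sb_ind J i)) =
      J.piecewise (fun i => yb (i, 1)) (fun i => yb (i, 0)) := by
    intro J
    funext i
    unfold sb_ind
    by_cases hi : i ∈ J
    · rw [if_pos hi, Finset.piecewise_eq_of_mem _ _ _ hi]
    · rw [if_neg hi, Finset.piecewise_eq_of_notMem _ _ _ hi]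
  unfold sb_set
  constructor
  · intro h J hJ
    rw [← key J]
    exact h _ (Finset.mem_image_of_mem _ hJ)
  · intro h α hα
    obtain ⟨J, hJ, rfl⟩ := Finset.mem_image.1 hα
    rw [key J]
    exact h J hJ

/-- The event that `f` vanishes at the vertices of a 2-grid, slot `j` excepted. -/
def sb_ev (f : (ι → Y) → V) (S : Finset ι) (y b : ι → Y) : Prop :=
  ∀ J ∈ S.powerset, f (J.piecewise b y) = 0

theorem sb_update {S : Finset ι} {j : ι} (hj : j ∉ S) (y b : ι → Y) (u : Y) :
    Function.update (S.piecewise b y) j u = S.piecewise b (Function.update y j u) := by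
  funext i
  by_cases hi : i = j
  · subst hi
    rw [Function.update_self, Finset.piecewise_eq_of_notMem _ _ _ hj, Function.update_self]
  · rw [Function.update_of_ne hi]
    by_cases hS : i ∈ S
    · rw [Finset.piecewise_eq_of_mem _ _ _ hS, Finset.piecewise_eq_of_mem _ _ _ hS]
    · rw [Finset.piecewise_eq_of_notMem _ _ _ hS, Finset.piecewise_eq_of_notMem _ _ _ hS,
        Function.update_of_ne hi]

theorem sb_rg {I : Finset ι} {f : (ι → Y) → V} (hf : MLin F I f) {j : ι} (hj : j ∈ I)
    (y b : ι → Y) : (qq F)⁻¹ ^ rg hf hj y b =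
      prob (fun u : Y => sb_ev f (I.erase j) (Function.update y j u) b) := by
  unfold rg
  rw [← prob_mem]
  refine prob_congr fun u => ?_
  simp only [Submodule.mem_iInf, LinearMap.mem_ker]
  unfold sb_ev
  refine forall_congr' fun J => forall_congr' fun hJ => ?_
  have hjJ : j ∉ J := fun h => Finset.notMem_erase j I (Finset.mem_powerset.1 hJ h)
  rw [← sb_update hjJ]
  exact Iff.rfl

theorem S_F1 {I : Finset ι} {f : (ι → Y) → V} (hf : MLin F I f) {j : ι} (hj : j ∈ I) :
    prob (fun y : ι → Y => f y = 0) ^ (2 ^ (I.card - 1)) ≤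
      avg (fun y : ι → Y => avg (fun b : ι → Y => (qq F)⁻¹ ^ rg hf hj y b)) := by
  have h1 := Zv_ge hf (sb_set (I.erase j))
  rw [sb_set_card, Finset.card_erase_of_mem hj, sb_Zv] at h1
  refine h1.trans (le_of_eq ?_)
  have h2 : avg (fun y : ι → Y => prob (fun b : ι → Y =>
      ∀ J ∈ (I.erase j).powerset, f (J.piecewise b y) = 0)) =
      avg (fun b : ι → Y => prob (fun y : ι → Y => sb_ev f (I.erase j) y b)) := by
    simp_rw [prob_eq_avg]
    rw [avg_comm]
    rfl
  rw [h2]
  rw [avg_comm (fun y b : ι → Y => (qq F)⁻¹ ^ rg hf hj y b)]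
  congr 1
  funext b
  rw [← prob_update j (fun y : ι → Y => sb_ev f (I.erase j) y b)]
  congr 1
  funext y
  rw [sb_rg hf hj y b]

theorem sb_ev_split {I : Finset ι} {f : (ι → Y) → V} {j : ι} (hj : j ∈ I) (y b : ι → Y)
    (u u' : Y) :
    sb_ev f I (Function.update y j u) (Function.update b j u') ↔
      sb_ev f (I.erase j) (Function.update y j u) b ∧
      sb_ev f (I.erase j) (Function.update y j u') b := by
  have hpw : ∀ (J : Finset ι), j ∉ J → ∀ (w : Y),
      J.piecewise (Function.update b j u') (Function.update y j w) =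
        J.piecewise b (Function.update y j w) := by
    intro J hJ w
    funext i
    by_cases hi : i ∈ J
    · rw [Finset.piecewise_eq_of_mem _ _ _ hi, Finset.piecewise_eq_of_mem _ _ _ hi,
        Function.update_of_ne (show i ≠ j from fun h => hJ (h ▸ hi))]
    · rw [Finset.piecewise_eq_of_notMem _ _ _ hi, Finset.piecewise_eq_of_notMem _ _ _ hi]
  have hpi : ∀ (J : Finset ι), j ∉ J →
      (insert j J).piecewise (Function.update b j u') (Function.update y j u) =
        J.piecewise b (Function.update y j u') := by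
    intro J hJ
    funext i
    by_cases hi : i = j
    · subst hi
      rw [Finset.piecewise_eq_of_mem _ _ _ (Finset.mem_insert_self _ _),
        Finset.piecewise_eq_of_notMem _ _ _ hJ, Function.update_self, Function.update_self]
    · by_cases hiJ : i ∈ J
      · rw [Finset.piecewise_eq_of_mem _ _ _ (Finset.mem_insert_of_mem hiJ),
          Finset.piecewise_eq_of_mem _ _ _ hiJ, Function.update_of_ne hi]
      · rw [Finset.piecewise_eq_of_notMem _ _ _ fun h => (Finset.mem_insert.1 h).elim hi hiJ,
          Finset.piecewise_eq_of_notMem _ _ _ hiJ, Function.update_of_ne hi,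
          Function.update_of_ne hi]
  unfold sb_ev
  constructor
  · intro h
    constructor
    · intro J hJ
      have hJ' := Finset.mem_powerset.1 hJ
      have hjJ : j ∉ J := fun h => Finset.notMem_erase j I (hJ' h)
      rw [← hpw J hjJ u]
      exact h J (Finset.mem_powerset.2 (hJ'.trans (Finset.erase_subset _ _)))
    · intro J hJ
      have hJ' := Finset.mem_powerset.1 hJ
      have hjJ : j ∉ J := fun h => Finset.notMem_erase j I (hJ' h)
      rw [← hpi J hjJ]
      exact h _ (Finset.mem_powerset.2
        (Finset.insert_subset hj (hJ'.trans (Finset.erase_subset _ _))))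
  · rintro ⟨h1, h2⟩ J hJ
    have hJ' := Finset.mem_powerset.1 hJ
    by_cases hjJ : j ∈ J
    · have h3 := h2 (J.erase j) (Finset.mem_powerset.2 (Finset.erase_subset_erase j hJ'))
      rw [← hpi (J.erase j) (Finset.notMem_erase j J), Finset.insert_erase hjJ] at h3
      exact h3
    · rw [hpw J hjJ u]
      refine h1 J (Finset.mem_powerset.2 fun i hi => Finset.mem_erase.2 ⟨?_, hJ' hi⟩)
      rintro rfl
      exact hjJ hi

theorem S_F2 {I : Finset ι} {f : (ι → Y) → V} (hf : MLin F I f) {j : ι} (hj : j ∈ I) {a κ : ℝ}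
    (h0 : prob (fun y : ι → Y => f y = 0) = (qq F) ^ (-a))
    (h3 : ZU f 3 ≤ (qq F) ^ (-((3 : ℝ) ^ I.card * a) + κ)) :
    avg (fun y : ι → Y => avg (fun b : ι → Y => ((qq F)⁻¹ ^ rg hf hj y b) ^ 2)) ≤
      (qq F) ^ (-((2 : ℝ) ^ I.card * a) + κ) := by
  have h1 := Zv_le hf h0 h3 (sb_set I) (sb_set_full le_rfl)
  rw [sb_set_card, sb_Zv] at h1
  push_cast at h1
  refine le_trans (le_of_eq ?_) h1
  have h2 : avg (fun y : ι → Y => prob (fun b : ι → Y =>
      ∀ J ∈ I.powerset, f (J.piecewise b y) = 0)) =
      avg (fun y : ι → Y => avg (fun b : ι → Y => if sb_ev f I y b then (1 : ℝ) else 0)) := by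
    simp_rw [prob_eq_avg]
    rfl
  rw [h2]
  set D : (ι → Y) → (ι → Y) → ℝ := fun y b => if sb_ev f I y b then (1 : ℝ) else 0 with hD
  have h4 : avg (fun y : ι → Y => avg (fun b : ι → Y => D y b)) =
      avg (fun y : ι → Y => avg (fun b : ι → Y => avg (fun u' : Y =>
        D y (Function.update b j u')))) := by
    congr 1
    funext y
    exact (avg_update j (fun b => D y b)).symm
  have h5 : avg (fun y : ι → Y => avg (fun b : ι → Y => avg (fun u' : Y =>
        D y (Function.update b j u')))) =
      avg (fun b : ι → Y => avg (fun y : ι → Y => avg (fun u : Y => avg (fun u' : Y =>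
        D (Function.update y j u) (Function.update b j u'))))) := by
    rw [avg_comm]
    congr 1
    funext b
    exact (avg_update j (fun y => avg (fun u' : Y => D y (Function.update b j u')))).symm
  rw [h4, h5, avg_comm (fun y b : ι → Y => ((qq F)⁻¹ ^ rg hf hj y b) ^ 2)]
  congr 1
  funext b
  congr 1
  funext y
  rw [sb_rg hf hj y b, prob_eq_avg, sq]
  set G : Y → ℝ := fun u => if sb_ev f (I.erase j) (Function.update y j u) b then (1 : ℝ) else 0
    with hG
  have h6 : ∀ u u' : Y, D (Function.update y j u) (Function.update b j u') = G u * G u' := by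
    intro u u'
    rw [hD, hG]
    simp only [sb_ev_split hj y b u u']
    by_cases ha : sb_ev f (I.erase j) (Function.update y j u) b <;>
      by_cases hb : sb_ev f (I.erase j) (Function.update y j u') b <;> simp [ha, hb]
  simp_rw [h6, avg_const_mul]
  have h7 : (fun u : Y => G u * avg G) = fun u => avg G * G u := by
    funext u
    ring
  rw [h7, avg_const_mul]

end PRAR
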