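import Pool.Agent.PRAR.Ba

/-! # Section 2: linear algebra -/

set_option autoImplicit false
set_option linter.unusedSectionVars false

open scoped Classical

noncomputable section

namespace PRAR

variable {F : Type} [Field F] [Fintype F]
variable {Y V : Type} [AddCommGroup Y] [Module F Y] [Fintype Y] [AddCommGroup V] [Module F V]
  [Fintype V]

/-- Rank and nullity on a subspace. -/
theorem se_rn {A B : Type} [AddCommGroup A] [Module F A] [FiniteDimensional F A] [AddCommGroup B]
    [Module F B] (s : A →ₗ[F] B) (J : Submodule F A) :
    Module.finrank F (J.map s) + Module.finrank F (J ⊓ LinearMap.ker s : Submodule F A) =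
      Module.finrank F J := by
  have h := LinearMap.finrank_range_add_finrank_ker (s.domRestrict J)
  rw [LinearMap.range_domRestrict, LinearMap.ker_domRestrict] at h
  have e := (J.equivSubtypeMap ((LinearMap.ker s).comap J.subtype)).finrank_eq
  rw [Submodule.map_comap_subtype] at e
  omega

theorem se_ker_prod (N N' : Y →ₗ[F] V) :
    LinearMap.ker (N.rangeRestrict.prod N'.rangeRestrict) =
      LinearMap.ker N ⊓ LinearMap.ker N' := by
  rw [LinearMap.ker_prod, LinearMap.ker_rangeRestrict, LinearMap.ker_rangeRestrict]

/-- The dimension count behind `step_lin`. -/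
theorem se_count (N N' : Y →ₗ[F] V) :
    Module.finrank F (LinearMap.range N ⊔ LinearMap.range N' : Submodule F V) +
      codim (LinearMap.ker N ⊓ LinearMap.ker N') ≤
      Module.finrank F (LinearMap.range (N + N')) + Module.finrank F (LinearMap.range N) +
        Module.finrank F (LinearMap.range N') := by
  set P := N.rangeRestrict.prod N'.rangeRestrict with hP
  set s : (LinearMap.range N × LinearMap.range N') →ₗ[F] V :=
    (LinearMap.range N).subtype.coprod (LinearMap.range N').subtype with hs
  have hcomp : s.comp P = N + N' := by
    ext u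
    simp [hs, hP]
  have hr : LinearMap.range s = LinearMap.range N ⊔ LinearMap.range N' := by
    rw [hs, LinearMap.range_coprod, Submodule.range_subtype, Submodule.range_subtype]
  have h1 := LinearMap.finrank_range_add_finrank_ker s
  have h2 := se_rn s (LinearMap.range P)
  have h3 : (LinearMap.range P).map s = LinearMap.range (N + N') := by
    rw [← hcomp, LinearMap.range_comp]
  have h4 := LinearMap.finrank_range_add_finrank_ker P
  have h5 : codim (LinearMap.ker N ⊓ LinearMap.ker N') = Module.finrank F (LinearMap.range P) := by
    unfold codim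
    rw [← se_ker_prod, ← hP]
    omega
  have h6 : Module.finrank F (LinearMap.range P ⊓ LinearMap.ker s :
      Submodule F (LinearMap.range N × LinearMap.range N')) ≤
      Module.finrank F (LinearMap.ker s) := Submodule.finrank_mono inf_le_right
  have h7 : Module.finrank F (LinearMap.range N × LinearMap.range N') =
      Module.finrank F (LinearMap.range N) + Module.finrank F (LinearMap.range N') :=
    Module.finrank_prod
  rw [hr, h7] at h1
  rw [h3] at h2
  omega

theorem step_lin (N N' : Y →ₗ[F] V) (a t δ1 δ2 : ℝ)
    (h1 : (Module.finrank F (LinearMap.range N) : ℝ) ≤ a + t)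
    (h2 : (Module.finrank F (LinearMap.range N') : ℝ) ≤ a + t)
    (h3 : (Module.finrank F (LinearMap.range (N + N')) : ℝ) ≤ a + t)
    (h4 : 2 * a - δ1 ≤ codim (LinearMap.ker N ⊓ LinearMap.ker N'))
    (h5 : a - δ2 ≤ Module.finrank F (LinearMap.range N')) :
    (Module.finrank F (LinearMap.range N ⊔ LinearMap.range N' : Submodule F V) : ℝ) ≤
      Module.finrank F (LinearMap.range N') + (3 * t + δ1 + δ2) := by
  have h := se_count N N'
  have h' : (Module.finrank F (LinearMap.range N ⊔ LinearMap.range N' : Submodule F V) : ℝ) +
      codim (LinearMap.ker N ⊓ LinearMap.ker N') ≤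
      Module.finrank F (LinearMap.range (N + N')) + Module.finrank F (LinearMap.range N) +
        Module.finrank F (LinearMap.range N') := by
    exact_mod_cast h
  linarith

theorem chain_lin {ι : Type} [Fintype ι] (I0 : Finset ι) (E : Finset ι → Submodule F V) (β : ℝ)
    (h : ∀ J, J ⊆ I0 → ∀ i ∈ I0, i ∉ J →
      (Module.finrank F (E J ⊔ E (insert i J) : Submodule F V) : ℝ) ≤
        Module.finrank F (E (insert i J)) + β) :
    (Module.finrank F (E ∅ ⊔ E I0 : Submodule F V) : ℝ) ≤
      Module.finrank F (E I0) + I0.card * β := by
  have key : ∀ J : Finset ι, J ⊆ I0 →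
      (Module.finrank F (E ∅ ⊔ E J : Submodule F V) : ℝ) ≤
        Module.finrank F (E J) + J.card * β := by
    intro J
    induction J using Finset.induction_on with
    | empty =>
      intro _
      rw [sup_idem]
      simp
    | insert i J hi ih =>
      intro hsub
      have hiI : i ∈ I0 := hsub (Finset.mem_insert_self i J)
      have hJ : J ⊆ I0 := fun x hx => hsub (Finset.mem_insert_of_mem hx)
      have h1 := ih hJ
      have h2 := h J hJ i hiI hi
      have h3 := Submodule.finrank_sup_add_finrank_inf_eq (E ∅ ⊔ E J) (E J ⊔ E (insert i J))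
      have h4 : Module.finrank F (E ∅ ⊔ E (insert i J) : Submodule F V) ≤
          Module.finrank F ((E ∅ ⊔ E J) ⊔ (E J ⊔ E (insert i J)) : Submodule F V) := by
        apply Submodule.finrank_mono
        exact sup_le (le_sup_left.trans le_sup_left) (le_sup_right.trans le_sup_right)
      have h5 : Module.finrank F (E J) ≤
          Module.finrank F ((E ∅ ⊔ E J) ⊓ (E J ⊔ E (insert i J)) : Submodule F V) :=
        Submodule.finrank_mono (le_inf le_sup_right le_sup_left)
      have h6 : (Module.finrank F (E ∅ ⊔ E (insert i J) : Submodule F V) : ℝ) +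
          Module.finrank F (E J) ≤ Module.finrank F (E ∅ ⊔ E J : Submodule F V) +
          Module.finrank F (E J ⊔ E (insert i J) : Submodule F V) := by
        have : Module.finrank F (E ∅ ⊔ E (insert i J) : Submodule F V) +
          Module.finrank F (E J) ≤ Module.finrank F (E ∅ ⊔ E J : Submodule F V) +
          Module.finrank F (E J ⊔ E (insert i J) : Submodule F V) := by omega
        exact_mod_cast this
      rw [Finset.card_insert_of_notMem hi]
      push_cast
      linarith
  exact key I0 (Finset.Subset.refl I0)

/-- Probability that `N u` lies in a subspace. -/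
theorem prob_in (N : Y →ₗ[F] V) (E : Submodule F V) (c : ℕ)
    (h : Module.finrank F (LinearMap.range N ⊔ E : Submodule F V) ≤ Module.finrank F E + c) :
    (qq F)⁻¹ ^ c ≤ prob (fun u : Y => N u ∈ E) := by
  have h0 : prob (fun u : Y => N u ∈ E) = prob (fun u : Y => u ∈ E.comap N) :=
    prob_congr fun u => Iff.rfl
  rw [h0, prob_mem]
  apply pow_le_pow_of_le_one
  · exact inv_nonneg.2 (qq_pos F).le
  · exact inv_le_one_of_one_le₀ (one_lt_qq F).le
  · have hk : LinearMap.ker (E.mkQ.comp N) = E.comap N := by
      rw [LinearMap.ker_comp, Submodule.ker_mkQ]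
    have h1 := LinearMap.finrank_range_add_finrank_ker (E.mkQ.comp N)
    rw [hk, LinearMap.range_comp] at h1
    have h2 := se_rn E.mkQ (LinearMap.range N ⊔ E)
    have h3 : (LinearMap.range N ⊔ E).map E.mkQ = (LinearMap.range N).map E.mkQ := by
      rw [Submodule.map_sup]
      have : E.map E.mkQ = ⊥ := by
        rw [eq_bot_iff, Submodule.map_le_iff_le_comap]
        intro x hx
        simpa using hx
      rw [this, sup_bot_eq]
    have h4 : ((LinearMap.range N ⊔ E) ⊓ LinearMap.ker E.mkQ : Submodule F V) = E := by
      rw [Submodule.ker_mkQ]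
      exact inf_eq_right.2 le_sup_right
    rw [h3, h4] at h2
    unfold codim
    omega

end PRAR
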